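import Pool.Agent.H98.Sum.Conv
import Pool.Graph.R_pool_sql_team_seeded_620a6dc7.helper608_VF_.V7

/-!
# Doubling at one scale: dissociated sets and growth
-/

set_option autoImplicit false

namespace Pool.Agent.H98.Big

open Finset Pool.Agent.Y806.DF Pool.Agent.H608VF Pool.Agent.H98.Sum
open scoped Pointwise

variable {G : Type*} [AddCommGroup G] [DecidableEq G]

/-- the subset sums of `y` are separated by `P` -/
def Sep (A : Finset G) (P : Set G) (s : ℕ) (y : Fin s → G) : Prop :=
  (∀ i, y i ∈ A) ∧ ∀ f g : Fin s → Bool, f ≠ g → ∀ p ∈ P, ∀ q ∈ P,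
    ∑ i, (if f i then y i else 0) + p ≠ ∑ i, (if g i then y i else 0) + q

theorem sep_card {A : Finset G} (h0 : (0 : G) ∈ A) {P : Set G} (hP : P.Finite) {s n : ℕ}
    (hsn : s ≤ n) {y : Fin s → G} (h : Sep A P s y) :
    2 ^ s * P.ncard ≤ (((n • A : Finset G) : Set G) + P).ncard := by
  classical
  have h1 : ((Finset.univ : Finset (Fin s → Bool)) ×ˢ hP.toFinset).card ≤
      (n • A + hP.toFinset).card := by
    refine Finset.card_le_card_of_injOn (fun p => ∑ i, (if p.1 i then y i else 0) + p.2) ?_ ?_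
    · rintro ⟨f, p⟩ hp
      have hp' := (Finset.mem_product.1 (Finset.mem_coe.1 hp)).2
      rw [Finset.mem_coe]
      refine Finset.add_mem_add ?_ hp'
      have h2 := sum_mem_nsmul (A := A) (Finset.univ : Finset (Fin s)) (fun _ => 1)
        (fun i => if f i then y i else 0) (fun i _ => by
          show (if f i = true then y i else 0) ∈ A
          split_ifs
          · exact h.1 i
          · exact h0)
      simp only [one_smul, Finset.sum_const, Finset.card_univ, Fintype.card_fin, smul_eq_mul,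
        mul_one] at h2
      exact Finset.nsmul_subset_nsmul_right h0 hsn h2
    · rintro ⟨f, p⟩ hp ⟨g, q⟩ hq heq
      have hp' := (Set.Finite.mem_toFinset _).1 (Finset.mem_product.1 (Finset.mem_coe.1 hp)).2
      have hq' := (Set.Finite.mem_toFinset _).1 (Finset.mem_product.1 (Finset.mem_coe.1 hq)).2
      simp only at heq hp' hq'
      by_cases hfg : f = g
      · subst hfg
        rw [add_right_inj] at heq
        rw [heq]
      · exact absurd heq (h.2 f g hfg p hp' q hq')
  rw [Finset.card_product, Finset.card_univ, Fintype.card_fun, Fintype.card_bool,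
    Fintype.card_fin] at h1
  rw [Set.ncard_eq_toFinset_card P hP]
  refine h1.trans (le_of_eq ?_)
  rw [← Set.ncard_coe_finset, Finset.coe_add, hP.coe_toFinset]

theorem dissoc {A : Finset G} (h0 : (0 : G) ∈ A) {P : Set G} (hP : P.Finite) {n s₀ : ℕ}
    (hsn : s₀ + 1 ≤ n)
    (hcard : (((n • A : Finset G) : Set G) + P).ncard < 2 ^ (s₀ + 1) * P.ncard) :
    ∃ (s : ℕ) (y : Fin s → G), s ≤ s₀ ∧
      ∀ a ∈ A, ∃ ε : Fin s → ℤ, (∀ i, |ε i| ≤ 1) ∧ ∃ p ∈ P, ∃ q ∈ P,
        a = ∑ i, ε i • y i + (p - q) := by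
  classical
  have hex : ∃ t, ¬ ∃ y : Fin t → G, Sep A P t y := by
    refine ⟨s₀ + 1, ?_⟩
    rintro ⟨y, hy⟩
    have := sep_card h0 hP hsn hy
    omega
  set t := Nat.find hex with ht
  have ht1 : ¬ ∃ y : Fin t → G, Sep A P t y := Nat.find_spec hex
  have ht2 : t ≤ s₀ + 1 := by
    refine Nat.find_min' hex ?_
    rintro ⟨y, hy⟩
    have := sep_card h0 hP hsn hy
    omega
  have ht0 : t ≠ 0 := by
    intro h00
    apply ht1
    rw [h00]
    refine ⟨Fin.elim0, fun i => i.elim0, ?_⟩
    intro f g hfg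
    exact absurd (Subsingleton.elim f g) hfg
  obtain ⟨s, hs⟩ := Nat.exists_eq_succ_of_ne_zero ht0
  have hs2 : ∃ y : Fin s → G, Sep A P s y := by
    by_contra hcon
    have : t ≤ s := Nat.find_min' hex hcon
    omega
  obtain ⟨y, hy⟩ := hs2
  rw [hs] at ht1
  refine ⟨s, y, by omega, ?_⟩
  intro a ha
  by_contra hcon
  apply ht1
  refine ⟨Fin.cons a y, ?_, ?_⟩
  · intro i
    refine Fin.cases ?_ (fun i => ?_) i
    · simpa using ha
    · simpa using hy.1 i
  · intro f g hfg p hp q hq heq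
    rw [Fin.sum_univ_succ, Fin.sum_univ_succ] at heq
    simp only [Fin.cons_zero, Fin.cons_succ] at heq
    have hdiff : ∀ f' g' : Fin s → Bool,
        ∑ i, (if g' i then y i else 0) - ∑ i, (if f' i then y i else 0) =
          ∑ i, ((if g' i then (1 : ℤ) else 0) - (if f' i then (1 : ℤ) else 0)) • y i := by
      intro f' g'
      rw [← Finset.sum_sub_distrib]
      refine Finset.sum_congr rfl fun i _ => ?_
      rw [sub_smul]
      congr 1 <;> split_ifs <;> simp
    have habs : ∀ f' g' : Fin s → Bool, ∀ i,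
        |(if g' i then (1 : ℤ) else 0) - (if f' i then (1 : ℤ) else 0)| ≤ 1 := by
      intro f' g' i
      split_ifs <;> simp
    by_cases hf0 : f 0 = true
    · by_cases hg0 : g 0 = true
      · rw [if_pos hf0, if_pos hg0] at heq
        refine hy.2 (fun i => f i.succ) (fun i => g i.succ) ?_ p hp q hq ?_
        · intro h
          apply hfg
          funext i
          refine Fin.cases ?_ (fun i => ?_) i
          · rw [hf0, hg0]
          · exact congrFun h i
        · rw [add_assoc, add_assoc, add_right_inj] at heq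
          exact heq
      · rw [if_pos hf0, if_neg hg0] at heq
        apply hcon
        refine ⟨fun i => (if g i.succ then (1 : ℤ) else 0) - (if f i.succ then (1 : ℤ) else 0),
          habs (fun i => f i.succ) (fun i => g i.succ), q, hq, p, hp, ?_⟩
        have := hdiff (fun i => f i.succ) (fun i => g i.succ)
        simp only at this ⊢
        rw [← this]
        rw [zero_add, add_assoc] at heq
        rw [eq_sub_of_add_eq heq]
        abel
    · by_cases hg0 : g 0 = true
      · rw [if_neg hf0, if_pos hg0] at heq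
        apply hcon
        refine ⟨fun i => (if f i.succ then (1 : ℤ) else 0) - (if g i.succ then (1 : ℤ) else 0),
          habs (fun i => g i.succ) (fun i => f i.succ), p, hp, q, hq, ?_⟩
        have := hdiff (fun i => g i.succ) (fun i => f i.succ)
        simp only at this ⊢
        rw [← this]
        rw [zero_add, add_assoc] at heq
        rw [eq_sub_of_add_eq heq.symm]
        abel
      · rw [if_neg hf0, if_neg hg0, zero_add, zero_add] at heq
        refine hy.2 (fun i => f i.succ) (fun i => g i.succ) ?_ p hp q hq heq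
        intro h
        apply hfg
        funext i
        refine Fin.cases ?_ (fun i => ?_) i
        · rw [Bool.not_eq_true] at hf0 hg0
          rw [hf0, hg0]
        · exact congrFun h i

/-- the elements of the iterated sumsets -/
theorem elems {A : Finset G} {d s : ℕ} {B : Set (Fin d → ℝ)} (hB : Sym B)
    {ψ : (Fin d → ℤ) →+ G} {H : AddSubgroup G} {y : Fin s → G}
    (hA : ∀ a ∈ A, ∃ ε : Fin s → ℤ, (∀ i, |ε i| ≤ 1) ∧ ∃ p ∈ cpr (lat B) ψ H,
      ∃ q ∈ cpr (lat B) ψ H, a = ∑ i, ε i • y i + (p - q)) (m : ℕ) :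
    ∀ x ∈ m • A, ∃ k : Fin s → ℤ, (∀ i, |k i| ≤ m) ∧ ∃ v ∈ lat ((2 * m : ℝ) • B), ∃ h ∈ H,
      x = ∑ i, k i • y i + (ψ v + h) := by
  classical
  induction m with
  | zero =>
    intro x hx
    rw [zero_smul, Finset.mem_zero] at hx
    refine ⟨0, fun i => by simp, 0, ?_, 0, H.zero_mem, ?_⟩
    · show re (0 : Fin d → ℤ) ∈ (2 * ((0 : ℕ) : ℝ)) • B
      have h0 : re (0 : Fin d → ℤ) = 0 := by funext i; simp [re]
      rw [h0]
      exact ⟨0, hB.zero, smul_zero _⟩
    · rw [hx]; simp
  | succ m ih =>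
    intro x hx
    rw [succ_nsmul] at hx
    obtain ⟨x', hx', a, ha, rfl⟩ := Finset.mem_add.1 hx
    obtain ⟨k, hk, v, hv, h, hh, e⟩ := ih x' hx'
    obtain ⟨ε, hε, p, ⟨v₁, hv₁, h₁, hh₁, rfl⟩, q, ⟨v₂, hv₂, h₂, hh₂, rfl⟩, e'⟩ := hA a ha
    refine ⟨k + ε, ?_, v + (v₁ - v₂), ?_, h + (h₁ - h₂), H.add_mem hh (H.sub_mem hh₁ hh₂), ?_⟩
    · intro i
      rw [Pi.add_apply]
      push_cast
      exact (abs_add_le _ _).trans (add_le_add (hk i) (hε i))
    · have h1 : v₁ ∈ lat ((1 : ℝ) • B) := by rw [one_smul]; exact hv₁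
      have h2 : v₂ ∈ lat ((1 : ℝ) • B) := by rw [one_smul]; exact hv₂
      have h3 := hB.sub zero_le_one zero_le_one h1 h2
      have h4 := hB.add (by positivity) (by norm_num) hv h3
      have h5 : (2 * (m : ℝ) + (1 + 1)) = 2 * ((m + 1 : ℕ) : ℝ) := by push_cast; ring
      rw [h5] at h4
      exact h4
    · rw [e, e']
      simp only [Pi.add_apply, add_smul, Finset.sum_add_distrib, map_add, map_sub]
      abel

/-- the growth of the iterated sumsets -/
theorem growth {A : Finset G} {d s : ℕ} {B : Set (Fin d → ℝ)} (hB : Sym B)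
    {ψ : (Fin d → ℤ) →+ G} {H : AddSubgroup G} [Finite H] {y : Fin s → G}
    (hA : ∀ a ∈ A, ∃ ε : Fin s → ℤ, (∀ i, |ε i| ≤ 1) ∧ ∃ p ∈ cpr (lat B) ψ H,
      ∃ q ∈ cpr (lat B) ψ H, a = ∑ i, ε i • y i + (p - q)) {m : ℕ} (hm : 1 ≤ m) :
    (m • A).card ≤ (4 * m) ^ (s + 2 * d) * ((lat B).ncard * Nat.card H) := by
  classical
  have hfin : (lat ((2 * m : ℝ) • B)).Finite := hB.finite _
  have hHf : (H : Set G).Finite := Set.toFinite _
  set Kf : Finset (Fin s → ℤ) := Fintype.piFinset fun _ => Finset.Icc (-(m : ℤ)) m with hKf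
  have h1 : (m • A) ⊆ ((Kf ×ˢ (hfin.toFinset ×ˢ hHf.toFinset)).image
      fun p => ∑ i, p.1 i • y i + (ψ p.2.1 + p.2.2)) := by
    intro x hx
    obtain ⟨k, hk, v, hv, h, hh, e⟩ := elems hB hA m x hx
    refine Finset.mem_image.2 ⟨(k, (v, h)), ?_, e.symm⟩
    refine Finset.mk_mem_product ?_ (Finset.mk_mem_product ?_ ?_)
    · rw [hKf, Fintype.mem_piFinset]
      intro i
      rw [Finset.mem_Icc]
      exact abs_le.1 (hk i)
    · rw [Set.Finite.mem_toFinset]; exact hv
    · rw [Set.Finite.mem_toFinset]; exact hh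
  have h2 : (m • A).card ≤ (2 * m + 1) ^ s * ((lat ((2 * m : ℝ) • B)).ncard * Nat.card H) := by
    refine (Finset.card_le_card h1).trans (Finset.card_image_le.trans ?_)
    rw [Finset.card_product, Finset.card_product]
    have e1 : Kf.card = (2 * m + 1) ^ s := by
      rw [hKf, Fintype.card_piFinset]
      simp only [Int.card_Icc, Finset.prod_const, Finset.card_univ, Fintype.card_fin]
      congr 1
      omega
    have e2 : hfin.toFinset.card = (lat ((2 * m : ℝ) • B)).ncard :=
      (Set.ncard_eq_toFinset_card _ hfin).symm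
    have e3 : hHf.toFinset.card = Nat.card H := by
      rw [← Set.ncard_eq_toFinset_card _ hHf]
      rfl
    rw [e1, e2, e3]
  -- the dilate
  obtain ⟨j, hj⟩ : ∃ j : ℕ, j = Nat.clog 2 (2 * m) := ⟨_, rfl⟩
  have hj1 : 2 * m ≤ 2 ^ j := by rw [hj]; exact Nat.le_pow_clog (by norm_num) _
  have hj0 : 1 ≤ j := by
    rw [Nat.one_le_iff_ne_zero]
    rintro h
    rw [h] at hj1
    omega
  have hj2 : 2 ^ j ≤ 4 * m := by
    have h3 : 2 ^ (j - 1) < 2 * m := by
      rw [hj]
      exact Nat.pow_pred_clog_lt_self (by norm_num) (by omega)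
    have h4 : 2 ^ j = 2 * 2 ^ (j - 1) := by
      rw [← pow_succ']
      congr 1
      omega
    omega
  have h3 : (lat ((2 * m : ℝ) • B)).ncard ≤ (4 ^ j) ^ d * (lat B).ncard := by
    have h4 : num B (2 * m) ≤ num B (2 ^ j * 1) := by
      refine num_mono hB (by positivity) ?_
      rw [mul_one]
      exact_mod_cast hj1
    have h5 := num_pow hB (t := 1) zero_le_one j
    have h6 : num B 1 = (lat B).ncard := by rw [num, one_smul]
    rw [h6] at h5
    exact h4.trans h5
  have h4j : 4 ^ j ≤ (4 * m) ^ 2 := by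
    calc 4 ^ j = (2 ^ j) ^ 2 := by rw [← pow_mul, mul_comm j 2, pow_mul]; norm_num
      _ ≤ (4 * m) ^ 2 := Nat.pow_le_pow_left hj2 2
  calc (m • A).card ≤ (2 * m + 1) ^ s * ((lat ((2 * m : ℝ) • B)).ncard * Nat.card H) := h2
    _ ≤ (4 * m) ^ s * ((((4 * m) ^ 2) ^ d * (lat B).ncard) * Nat.card H) := by
        refine Nat.mul_le_mul (Nat.pow_le_pow_left (by omega) s) (Nat.mul_le_mul_right _ ?_)
        exact h3.trans (Nat.mul_le_mul_right _ (Nat.pow_le_pow_left h4j d))
    _ = (4 * m) ^ (s + 2 * d) * ((lat B).ncard * Nat.card H) := by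
        rw [pow_add, pow_mul (4 * m) 2 d]; ring

end Pool.Agent.H98.Big
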