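import Pool.Agent.H98.Big.Dis
import Pool.Graph.R_seed8.H112R2.Final

/-!
# Doubling at one scale: growth with a near-linear exponent
-/

set_option autoImplicit false

namespace Pool.Agent.H98.Big

open Finset H112 Pool.Agent.Y806.DF Pool.Agent.H608VF Pool.Agent.H98.Sum
open scoped Pointwise

variable {G : Type*} [AddCommGroup G] [DecidableEq G]

theorem grow_main {A : Finset G} (h0 : (0 : G) ∈ A) {n s₀ : ℕ} {K : ℝ}
    (hK : ((n • A + n • A).card : ℝ) ≤ K * (n • A).card) (hsn : s₀ + 1 ≤ n)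
    (hs₀ : ∀ T d : ℕ, (T : ℝ) ≤ (2 * K) ^ (13000 * (1 + Real.log (1 + Real.log (2 * K)))) →
      (d : ℝ) ≤ 300 * Real.log (2 * K) → T ^ 2 * 4 ^ d < 2 ^ (s₀ + 1)) :
    ∃ E d : ℕ, E ≤ s₀ + 2 * d ∧ (d : ℝ) ≤ 300 * Real.log (2 * K) ∧
      ∀ m : ℕ, 1 ≤ m → (m • A).card ≤ (4 * m) ^ E * (n • A).card := by
  classical
  have hnA : (n • A).Nonempty := Finset.Nonempty.nsmul ⟨0, h0⟩
  obtain ⟨d, B, ψ, H, T, hd, hB, hH, hvol, hT, hcov⟩ := near_pfr hnA hK
  have hBs : Sym B := ⟨hB.1, hB.2.1, hB.2.2.2, hB.2.2.1.mono interior_subset⟩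
  have hfin : (lat B).Finite := lat_finite hB.2.1.isBounded
  have hvol' : (lat B).ncard * Nat.card H ≤ (n • A).card := hvol
  set P : Set G := cpr (lat B) ψ H with hP
  have hPfin : P.Finite := cpr_finite hfin ψ H
  have h2fin : (cpr (lat ((2 : ℝ) • B)) ψ H).Finite := cpr_finite (hBs.finite 2) ψ H
  -- `n A ⊆ T + P`
  have hsub : ((n • A : Finset G) : Set G) ⊆ (T : Set G) + P := by
    intro a ha
    obtain ⟨t, ht, c, hc, h, hh, e⟩ := hcov a (Finset.mem_coe.1 ha)
    exact ⟨t, Finset.mem_coe.2 ht, ψ c + h, ⟨c, hc, h, hh, rfl⟩, by rw [e, add_assoc]⟩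
  have hle1 : (n • A).card ≤ T.card * P.ncard := by
    have h1 := Set.ncard_le_ncard hsub ((Finset.finite_toSet T).add hPfin)
    rw [Set.ncard_coe_finset] at h1
    refine h1.trans ?_
    have h2 : ((T : Set G) + P) = ((T + hPfin.toFinset : Finset G) : Set G) := by
      rw [Finset.coe_add, hPfin.coe_toFinset]
    rw [h2, Set.ncard_coe_finset, Set.ncard_eq_toFinset_card P hPfin]
    exact Finset.card_add_le
  have hsub2 : ((n • A : Finset G) : Set G) + P ⊆ (T : Set G) + cpr (lat ((2 : ℝ) • B)) ψ H := by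
    rintro _ ⟨a, ha, p, ⟨v, hv, h, hh, rfl⟩, rfl⟩
    obtain ⟨t, ht, _, ⟨c, hc, h', hh', rfl⟩, rfl⟩ := hsub ha
    refine ⟨t, ht, ψ (c + v) + (h' + h), ⟨c + v, ?_, h' + h, H.add_mem hh' hh, rfl⟩, ?_⟩
    · have h1 : c ∈ lat ((1 : ℝ) • B) := by rw [one_smul]; exact hc
      have h2 : v ∈ lat ((1 : ℝ) • B) := by rw [one_smul]; exact hv
      have h3 := hBs.add zero_le_one zero_le_one h1 h2
      norm_num at h3
      exact h3
    · simp only [map_add]; abel
  have hle2 : (((n • A : Finset G) : Set G) + P).ncard ≤ T.card * (4 ^ d * (n • A).card) := by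
    have h1 := Set.ncard_le_ncard hsub2 ((Finset.finite_toSet T).add h2fin)
    refine h1.trans ?_
    have h2 : ((T : Set G) + cpr (lat ((2 : ℝ) • B)) ψ H) =
        ((T + h2fin.toFinset : Finset G) : Set G) := by
      rw [Finset.coe_add, h2fin.coe_toFinset]
    rw [h2, Set.ncard_coe_finset]
    refine Finset.card_add_le.trans (Nat.mul_le_mul_left _ ?_)
    rw [← Set.ncard_eq_toFinset_card _ h2fin]
    refine (ncard_cpr_le (hBs.finite 2) ψ H).trans ?_
    have h3 := num_double hBs (t := 1) zero_le_one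
    rw [mul_one] at h3
    have h6 : num B 1 = (lat B).ncard := by rw [num, one_smul]
    rw [h6] at h3
    calc (lat ((2 : ℝ) • B)).ncard * Nat.card H ≤ (4 ^ d * (lat B).ncard) * Nat.card H :=
          Nat.mul_le_mul_right _ h3
      _ = 4 ^ d * ((lat B).ncard * Nat.card H) := by ring
      _ ≤ _ := Nat.mul_le_mul_left _ hvol'
  have hPpos : 0 < P.ncard := by
    rw [Set.ncard_pos hPfin]
    refine ⟨ψ 0 + 0, 0, ?_, 0, H.zero_mem, rfl⟩
    show re (0 : Fin d → ℤ) ∈ B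
    have : re (0 : Fin d → ℤ) = 0 := by funext i; simp [re]
    rw [this]; exact hBs.zero
  have hcard : (((n • A : Finset G) : Set G) + P).ncard < 2 ^ (s₀ + 1) * P.ncard := by
    calc (((n • A : Finset G) : Set G) + P).ncard ≤ T.card * (4 ^ d * (n • A).card) := hle2
      _ ≤ T.card * (4 ^ d * (T.card * P.ncard)) :=
          Nat.mul_le_mul_left _ (Nat.mul_le_mul_left _ hle1)
      _ = (T.card ^ 2 * 4 ^ d) * P.ncard := by ring
      _ < _ := Nat.mul_lt_mul_of_pos_right (hs₀ T.card d hT hd) hPpos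
  obtain ⟨s, y, hs, hy⟩ := dissoc h0 hPfin hsn hcard
  refine ⟨s + 2 * d, d, by omega, hd, ?_⟩
  intro m hm
  exact (growth hBs hy hm).trans (Nat.mul_le_mul_left _ hvol')

end Pool.Agent.H98.Big
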