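import Pool.Agent.H98.Big.Struct
import Pool.Agent.H98.Big.Grow

/-!
# Doubling at one scale: arbitrary groups, and the conclusion
-/

set_option autoImplicit false

namespace Pool.Agent.H98.Big

open Finset H112 Pool.Agent.Y806.DF Pool.Agent.H608VF Pool.Agent.H98.Sum Pool.Agent.R92.Star
open scoped Pointwise

universe u

section
variable {G : Type u} [AddCommGroup G] [DecidableEq G]

/-- the size of the double of a convex coset progression -/
theorem cpr_double {d : ℕ} {B : Set (Fin d → ℝ)} (hB : Sym B) (ψ : (Fin d → ℤ) →+ G)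
    (H : AddSubgroup G) [Finite H] :
    (cpr (lat ((2 : ℝ) • B)) ψ H).ncard ≤ 64 ^ d * (cpr (lat B) ψ H).ncard := by
  classical
  obtain ⟨F, hF, hcov⟩ := cover_two hB (t := 1) one_pos le_rfl
  rw [one_smul] at hcov
  have h1 := num_double hB (t := 1 / 2) (by norm_num)
  norm_num at h1
  have hpos := num_pos hB (1 / 2)
  have hF' : F.card ≤ 64 ^ d := by
    have h2 : ((num B 1 : ℕ) : ℝ) ≤ 4 ^ d * (num B (1 / 2) : ℕ) := by exact_mod_cast h1
    have h3 : (F.card : ℝ) * (num B (1 / 2) : ℕ) ≤ 64 ^ d * (num B (1 / 2) : ℕ) := by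
      calc (F.card : ℝ) * (num B (1 / 2) : ℕ) ≤ 16 ^ d * num B 1 := hF
        _ ≤ 16 ^ d * (4 ^ d * (num B (1 / 2) : ℕ)) := mul_le_mul_of_nonneg_left h2 (by positivity)
        _ = (16 * 4) ^ d * (num B (1 / 2) : ℕ) := by rw [mul_pow]; ring
        _ = _ := by norm_num
    have h4 : (0 : ℝ) < (num B (1 / 2) : ℕ) := by exact_mod_cast hpos
    have h5 := le_of_mul_le_mul_right h3 h4
    exact_mod_cast h5
  have hfin : (cpr (lat B) ψ H).Finite := by
    have := hB.finite 1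
    rw [one_smul] at this
    exact cpr_finite this ψ H
  have hsub : cpr (lat ((2 : ℝ) • B)) ψ H ⊆
      ((F.image ψ + hfin.toFinset : Finset G) : Set G) := by
    rintro _ ⟨v, hv, h, hh, rfl⟩
    obtain ⟨f, hf, w, hw, rfl⟩ := hcov v hv
    rw [Finset.mem_coe]
    refine Finset.mem_add.2 ⟨ψ f, Finset.mem_image_of_mem _ hf, ψ w + h, ?_, ?_⟩
    · rw [Set.Finite.mem_toFinset]; exact ⟨w, hw, h, hh, rfl⟩
    · rw [map_add]; abel
  have h2 := Set.ncard_le_ncard hsub (Finset.finite_toSet _)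
  rw [Set.ncard_coe_finset] at h2
  refine h2.trans (Finset.card_add_le.trans ?_)
  rw [Set.ncard_eq_toFinset_card _ hfin]
  exact Nat.mul_le_mul_right _ (Finset.card_image_le.trans hF')

/-- the size of the dilates of a convex coset progression -/
theorem cpr_pow {d : ℕ} {B : Set (Fin d → ℝ)} (hB : Sym B) (ψ : (Fin d → ℤ) →+ G)
    (H : AddSubgroup G) [Finite H] (j : ℕ) :
    (cpr (lat ((2 ^ j : ℝ) • B)) ψ H).ncard ≤ (64 ^ j) ^ d * (cpr (lat B) ψ H).ncard := by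
  induction j with
  | zero => simp
  | succ j ih =>
    have h1 := cpr_double (hB.smul (2 ^ j)) ψ H
    rw [smul_smul, ← pow_succ'] at h1
    calc _ ≤ _ := h1
      _ ≤ 64 ^ d * ((64 ^ j) ^ d * (cpr (lat B) ψ H).ncard) := Nat.mul_le_mul_left _ ih
      _ = (64 ^ (j + 1)) ^ d * (cpr (lat B) ψ H).ncard := by
          rw [pow_succ 64 j, mul_pow (64 ^ j) 64 d]; ring

theorem struct_gen {A : Finset G} (h0 : (0 : G) ∈ A) (hsym : -A = A)
    {n r I k E l D : ℕ} {K : ℝ} (hr : 0 < r) (hnr : n ≤ r) (hI : 1 ≤ I)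
    (hgrow : ∀ m : ℕ, 1 ≤ m → (m • A).card ≤ (4 * m) ^ E * (n • A).card)
    (hRI : ((4 * (I * r) : ℕ) : ℝ) ^ E < (13 / 12) ^ (I - 1))
    (hl : l = 2 * ((k + 1) * (I * r))) (hk : 4 * (4 * l) ^ E ≤ 4 ^ k)
    (hK : ((n • A + n • A).card : ℝ) ≤ K * (n • A).card) (hKn : (K ^ 3) ^ 185 < 2 ^ n)
    (hD : ∀ M s : ℕ, (2 : ℝ) ^ M ≤ (K ^ 3) ^ 185 → (s : ℝ) ≤ 480 * Real.log (K ^ 3) + 1 → s + M ≤ D)
    (hDr : D + 1 ≤ r) :
    ∃ (d : ℕ) (B : Set (Fin d → ℝ)) (ψ : (Fin d → ℤ) →+ G) (H : AddSubgroup G),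
      d ≤ D ∧ Sym B ∧ Finite H ∧
      (∀ t : ℕ, ∀ x ∈ t • A, x ∈ cpr (lat ((t : ℝ) • B)) ψ H) ∧
      (∀ t : ℕ, ∀ x ∈ cpr (lat ((t : ℝ) • B)) ψ H, x ∈ (2 * t + l) • A) := by
  classical
  obtain ⟨Γ, hΓ⟩ : ∃ Γ : AddSubgroup G, Γ = AddSubgroup.closure (A : Set G) := ⟨_, rfl⟩
  obtain ⟨A', hA'⟩ := exists_model A Γ (fun a ha => by
    rw [hΓ]; exact AddSubgroup.subset_closure ha)
  have hinj : Function.Injective Γ.subtype := Γ.subtype_injective
  have : AddGroup.FG Γ := by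
    rw [AddGroup.fg_iff_addSubgroup_fg]
    exact ⟨A, hΓ.symm⟩
  have himg : ∀ j : ℕ, (j • A').image Γ.subtype = j • A := by
    intro j
    rw [image_nsmul_hom, hA']
  have hcard : ∀ j : ℕ, (j • A').card = (j • A).card := by
    intro j
    rw [← himg, Finset.card_image_of_injective _ hinj]
  have hcard2 : (n • A' + n • A').card = (n • A + n • A).card := by
    rw [← himg, ← Finset.image_add, Finset.card_image_of_injective _ hinj]
  have h0' : (0 : Γ) ∈ A' := by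
    rw [← hA'] at h0
    obtain ⟨a, ha, ha0⟩ := Finset.mem_image.1 h0
    have : a = 0 := hinj (by rw [ha0, map_zero])
    rwa [this] at ha
  have hsym' : -A' = A' := by
    have h1 : ∀ a ∈ A', -a ∈ A' := by
      intro a ha
      have h2 : Γ.subtype a ∈ A := by rw [← hA']; exact Finset.mem_image_of_mem _ ha
      have h3 : -Γ.subtype a ∈ A := by
        rw [← hsym]; exact Finset.neg_mem_neg h2
      rw [← hA'] at h3
      obtain ⟨b, hb, hba⟩ := Finset.mem_image.1 h3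
      have h4 : b = -a := hinj (by rw [hba, map_neg])
      rwa [h4] at hb
    ext a
    rw [Finset.mem_neg']
    constructor
    · intro h
      have := h1 _ h
      rwa [neg_neg] at this
    · exact h1 a
  obtain ⟨d, B, ψ, H, hd, hB, hH, hin, hout⟩ := struct_fg (A := A') h0' hsym' hr hnr hI
    (fun m hm => by rw [hcard, hcard]; exact hgrow m hm) hRI hl hk
    (by rw [hcard2, hcard]; exact hK) hKn hD hDr
  refine ⟨d, B, Γ.subtype.comp ψ, H.map Γ.subtype, hd, hB, ?_, ?_, ?_⟩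
  · have : (H.map Γ.subtype : Set G).Finite := by
      rw [AddSubgroup.coe_map]
      exact (Set.toFinite (H : Set Γ)).image _
    exact this.to_subtype
  · intro t x hx
    rw [← himg] at hx
    obtain ⟨x', hx', rfl⟩ := Finset.mem_image.1 hx
    obtain ⟨v, hv, h, hh, e⟩ := hin t x' hx'
    exact ⟨v, hv, Γ.subtype h, ⟨h, hh, rfl⟩, by rw [e, map_add]; rfl⟩
  · rintro t _ ⟨v, hv, _, ⟨h, hh, rfl⟩, rfl⟩
    have h1 := hout t (ψ v + h) ⟨v, hv, h, hh, rfl⟩
    rw [← himg]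
    exact Finset.mem_image.2 ⟨_, h1, by rw [map_add]; rfl⟩

end

/-- the conclusion, from the structure -/
theorem concl_of_struct (c : ℝ) : ∃ C' : ℝ, 0 < C' ∧ ∀ (Γ : Type u) [AddCommGroup Γ]
    [DecidableEq Γ] (K : ℝ) (A B : Finset Γ) (N q l d : ℕ) (Q : Set (Fin d → ℝ))
    (ψ : (Fin d → ℤ) →+ Γ) (H : AddSubgroup Γ), 1 ≤ K → (0 : Γ) ∈ A → -A = A → B.Nonempty →
    1 ≤ q → q * (4 * l + 8) ≤ N → (d : ℝ) ≤ c * Real.log (2 * K) → Sym Q → Finite H →
    (∀ t : ℕ, ∀ x ∈ t • (q • A), x ∈ cpr (lat ((t : ℝ) • Q)) ψ H) →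
    (∀ t : ℕ, ∀ x ∈ cpr (lat ((t : ℝ) • Q)) ψ H, x ∈ (2 * t + l) • (q • A)) →
    ((B + N • A).card : ℝ) ≤ K * (N • A).card → ((N • A).card : ℝ) ≤ K * B.card →
    Concl C' K B := by
  classical
  obtain ⟨n₂, hn₂⟩ : ∃ n₂ : ℕ, 12 * |c| ≤ n₂ := exists_nat_ge _
  obtain ⟨p, hp⟩ : ∃ p : ℕ, p = 4 ^ n₂ := ⟨_, rfl⟩
  have hp1 : 1 ≤ p := by rw [hp]; exact Nat.one_le_pow _ _ (by norm_num)
  have hp1r : (1 : ℝ) ≤ p := by exact_mod_cast hp1
  obtain ⟨C₁, hC₁⟩ := concl_of_cov.{u} p (p + 19)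
  obtain ⟨C', hC', hC'1⟩ : ∃ C' : ℝ, 0 < C' ∧ 3 * |C₁| ≤ C' := ⟨3 * |C₁| + 1, by positivity, by linarith⟩
  refine ⟨C', hC', ?_⟩
  intro Γ _ _ K A B N q l d Q ψ H hK h0 hsym hB hq hN hd hQ hH hin hout hBA hAB
  have hK0 : 0 < K := by linarith
  have hl2K : 0 ≤ Real.log (2 * K) := Real.log_nonneg (by linarith)
  have hP : (N • A).Nonempty := Finset.Nonempty.nsmul ⟨0, h0⟩
  have hP0 : (0 : ℝ) < (N • A).card := by exact_mod_cast hP.card_pos
  have hB0 : (0 : ℝ) < B.card := by exact_mod_cast hB.card_pos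
  have hdoubB : ((B + B).card : ℝ) ≤ K ^ 3 * B.card := by
    have h1 := Finset.ruzsa_triangle_inequality_add_add_add B (N • A) B
    have h2 : ((B + B).card : ℝ) * (N • A).card ≤ (B + N • A).card * (N • A + B).card := by
      exact_mod_cast h1
    rw [add_comm (N • A) B] at h2
    have h3 : ((B + B).card : ℝ) * (N • A).card ≤ (K ^ 3 * B.card) * (N • A).card := by
      calc _ ≤ _ := h2
        _ ≤ (K * (N • A).card) * (K * (N • A).card) :=
          mul_le_mul hBA hBA (Nat.cast_nonneg _) (by positivity)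
        _ ≤ (K * (K * B.card)) * (K * (N • A).card) := by gcongr
        _ = _ := by ring
    exact le_of_mul_le_mul_right h3 hP0
  -- the scales
  obtain ⟨N₁, hN₁⟩ : ∃ N₁ : ℕ, N₁ = N / q := ⟨_, rfl⟩
  have hN₁1 : 4 * l + 8 ≤ N₁ := by
    rw [hN₁, Nat.le_div_iff_mul_le (by omega), mul_comm]
    exact hN
  have hN₁2 : N₁ * q ≤ N := by rw [hN₁]; exact Nat.div_mul_le_self _ _
  have hN₁3 : N ≤ (N₁ + 1) * q := by
    rw [hN₁]
    have := Nat.lt_mul_div_succ N (show 0 < q by omega)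
    rw [mul_comm]
    exact this.le
  obtain ⟨t₀, ht₀⟩ : ∃ t₀ : ℕ, t₀ = (N₁ - l) / 2 := ⟨_, rfl⟩
  have ht₀1 : 2 * t₀ + l ≤ N₁ := by omega
  have ht₀2 : 2 * (N₁ + 1) ≤ 16 * t₀ := by omega
  -- `P_{t₀} ⊆ N A ⊆ P_{2 (N₁ + 1)}`
  have hfint : ∀ t : ℕ, (cpr (lat ((t : ℝ) • Q)) ψ H).Finite := fun t => cpr_finite (hQ.finite _) ψ H
  have hlow : (cpr (lat ((t₀ : ℝ) • Q)) ψ H).ncard ≤ (N • A).card := by
    have h1 : cpr (lat ((t₀ : ℝ) • Q)) ψ H ⊆ ((N • A : Finset Γ) : Set Γ) := by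
      intro x hx
      have h2 := hout t₀ x hx
      rw [smul_smul] at h2
      exact Finset.nsmul_subset_nsmul_right h0
        ((Nat.mul_le_mul_right _ ht₀1).trans hN₁2) h2
    have := Set.ncard_le_ncard h1 (Finset.finite_toSet _)
    rwa [Set.ncard_coe_finset] at this
  have hup : (cpr (lat (((2 * (N₁ + 1) : ℕ) : ℝ) • Q)) ψ H).ncard ≤
      (64 ^ 4) ^ d * (N • A).card := by
    have h1 : cpr (lat (((2 * (N₁ + 1) : ℕ) : ℝ) • Q)) ψ H ⊆
        cpr (lat ((2 ^ 4 : ℝ) • ((t₀ : ℝ) • Q))) ψ H := by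
      rintro _ ⟨v, hv, h, hh, rfl⟩
      refine ⟨v, ?_, h, hh, rfl⟩
      rw [smul_smul]
      refine lat_mono (hQ.mono (Nat.cast_nonneg _) ?_) hv
      have : ((2 * (N₁ + 1) : ℕ) : ℝ) ≤ ((16 * t₀ : ℕ) : ℝ) := by exact_mod_cast ht₀2
      push_cast at this ⊢
      linarith
    have h2 := Set.ncard_le_ncard h1 (cpr_finite ((hQ.smul (t₀ : ℝ)).finite _) ψ H)
    refine h2.trans ((cpr_pow (hQ.smul (t₀ : ℝ)) ψ H 4).trans ?_)
    exact Nat.mul_le_mul_left _ hlow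
  obtain ⟨B', hB', hlatB'⟩ := fatten (hQ.smul ((2 * (N₁ + 1) : ℕ) : ℝ))
  -- covering `B`
  obtain ⟨T, hTB, hTK, hBT⟩ := Finset.ruzsa_covering_add (A := B) (B := N • A) (K := K) hP hBA
  have hNN : ∀ x ∈ N • A - N • A, x ∈ cpr (lat (((2 * (N₁ + 1) : ℕ) : ℝ) • Q)) ψ H := by
    intro x hx
    obtain ⟨a, ha, b, hb, rfl⟩ := Finset.mem_sub.1 hx
    refine hin (2 * (N₁ + 1)) _ ?_
    rw [smul_smul]
    have h1 : -b ∈ N • A := by
      rw [← neg_nsmul_eq hsym N]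
      exact Finset.neg_mem_neg hb
    have h2 : a - b ∈ (N + N) • A := by
      rw [add_smul, sub_eq_add_neg]
      exact Finset.add_mem_add ha h1
    refine Finset.nsmul_subset_nsmul_right h0 ?_ h2
    calc N + N ≤ (N₁ + 1) * q + (N₁ + 1) * q := Nat.add_le_add hN₁3 hN₁3
      _ = 2 * (N₁ + 1) * q := by ring
  have hK3 : 1 ≤ K ^ 3 := one_le_pow₀ hK
  have hKK3 : K ≤ K ^ 3 := by
    calc K = K ^ 1 := (pow_one K).symm
      _ ≤ K ^ 3 := pow_le_pow_right₀ hK (by norm_num)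
  have hbig : ∀ j : ℕ, j ≤ p + 19 → (K ^ 3) ^ j ≤ (p : ℝ) * (K ^ 3) ^ (p + 19) := by
    intro j hj
    calc (K ^ 3) ^ j ≤ (K ^ 3) ^ (p + 19) := pow_le_pow_right₀ hK3 hj
      _ = 1 * (K ^ 3) ^ (p + 19) := by rw [one_mul]
      _ ≤ _ := mul_le_mul_of_nonneg_right hp1r (by positivity)
  have h12d : (4 : ℝ) ^ (12 * d) ≤ (p : ℝ) * (K ^ 3) ^ p := by
    have h1 : ((12 * d : ℕ) : ℝ) ≤ (12 * |c|) * Real.log (2 * K) := by
      push_cast
      have h2 : (d : ℝ) ≤ |c| * Real.log (2 * K) :=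
        hd.trans (mul_le_mul_of_nonneg_right (le_abs_self _) hl2K)
      linarith
    have h2 := four_pow hn₂ hK h1
    rw [← hp] at h2
    exact h2.trans (mul_le_mul_of_nonneg_left (pow_le_pow_left₀ hK0.le hKK3 p) (by positivity))
  obtain ⟨d', Q', θ, H', T', h1, h2, h3, h4, h5, h6⟩ := hC₁ Γ (K ^ 3) B hB hdoubB d B' ψ H T
    (by have := hbig 0 (by omega); rwa [pow_zero] at this)
    (by
      calc (4 : ℝ) ^ d ≤ 4 ^ (12 * d) := pow_le_pow_right₀ (by norm_num) (by omega)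
        _ ≤ (p : ℝ) * (K ^ 3) ^ p := h12d
        _ ≤ (p : ℝ) * (K ^ 3) ^ (p + 19) :=
          mul_le_mul_of_nonneg_left (pow_le_pow_right₀ hK3 (by omega)) (by positivity))
    hB' hH
    (by
      rw [hlatB']
      have e : ((64 ^ 4) ^ d : ℕ) = 4 ^ (12 * d) := by
        rw [pow_mul]; norm_num
      rw [e] at hup
      calc ((cpr (lat (((2 * (N₁ + 1) : ℕ) : ℝ) • Q)) ψ H).ncard : ℝ)
          ≤ ((4 ^ (12 * d) * (N • A).card : ℕ) : ℝ) := by exact_mod_cast hup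
        _ = (4 : ℝ) ^ (12 * d) * (N • A).card := by push_cast; rfl
        _ ≤ ((p : ℝ) * (K ^ 3) ^ p) * (K ^ 3 * B.card) := by
            refine mul_le_mul h12d (hAB.trans (mul_le_mul_of_nonneg_right hKK3 hB0.le))
              hP0.le (by positivity)
        _ = ((p : ℝ) * (K ^ 3) ^ (p + 1)) * B.card := by rw [pow_succ]; ring
        _ ≤ _ := mul_le_mul_of_nonneg_right (mul_le_mul_of_nonneg_left
            (pow_le_pow_right₀ hK3 (by omega)) (by positivity)) hB0.le)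
    (by
      refine hTK.trans (le_trans ?_ (hbig 1 (by omega)))
      rw [pow_one]
      exact hKK3)
    (by
      intro b hb
      obtain ⟨s, hs, x, hx, hsx⟩ := Finset.mem_add.1 (hBT hb)
      obtain ⟨v, hv, h, hh, e⟩ := hNN x hx
      exact ⟨s, hs, v, by rw [hlatB']; exact hv, h, hh, by rw [← hsx, e, add_assoc]⟩)
  refine ⟨d', Q', θ, H', T', ?_, h2, h3, h4, ?_, h6⟩
  · refine h1.trans ?_
    have hl2 : 0 < Real.log 2 := Real.log_pos (by norm_num)
    have hlK : 0 ≤ Real.log K := Real.log_nonneg hK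
    have e1 : Real.log (2 * K ^ 3) = Real.log 2 + 3 * Real.log K := by
      rw [Real.log_mul (by norm_num) (by positivity), Real.log_pow]
      push_cast; ring
    have e2 : Real.log (2 * K) = Real.log 2 + Real.log K := by
      rw [Real.log_mul (by norm_num) hK0.ne']
    rw [e1, e2]
    calc C₁ * (Real.log 2 + 3 * Real.log K) ≤ |C₁| * (Real.log 2 + 3 * Real.log K) :=
          mul_le_mul_of_nonneg_right (le_abs_self _) (by positivity)
      _ ≤ |C₁| * (3 * (Real.log 2 + Real.log K)) :=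
          mul_le_mul_of_nonneg_left (by linarith) (abs_nonneg _)
      _ = (3 * |C₁|) * (Real.log 2 + Real.log K) := by ring
      _ ≤ _ := mul_le_mul_of_nonneg_right hC'1 (by positivity)
  · refine h5.trans ?_
    have e1 : (K ^ 3) ^ C₁ ≤ K ^ C' := by
      rw [← Real.rpow_natCast K 3, ← Real.rpow_mul hK0.le]
      refine Real.rpow_le_rpow_of_exponent_le hK ?_
      have : C₁ ≤ |C₁| := le_abs_self _
      have h8 : 0 ≤ |C₁| := abs_nonneg _
      push_cast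
      linarith
    have h8 : C₁ ≤ C' := by
      have : C₁ ≤ |C₁| := le_abs_self _
      have h8 : 0 ≤ |C₁| := abs_nonneg _
      linarith
    calc C₁ * (K ^ 3) ^ C₁ ≤ C' * (K ^ 3) ^ C₁ := mul_le_mul_of_nonneg_right h8 (by positivity)
      _ ≤ C' * K ^ C' := mul_le_mul_of_nonneg_left e1 hC'.le

end Pool.Agent.H98.Big
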