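import Mathlib

/-!
# Doubling at one scale: the parameters
-/

set_option autoImplicit false

namespace Pool.Agent.H98.Big

theorem exists_param (a b : ℝ) (ha : 0 ≤ a) (hb : 0 ≤ b) :
    ∃ c : ℝ, 1 ≤ c ∧ a + b * Real.log c ≤ c := by
  refine ⟨(a + 2 * b + 1) ^ 2, ?_, ?_⟩
  · exact one_le_pow₀ (by linarith)
  · have h0 : 0 < a + 2 * b + 1 := by positivity
    have h1 := Real.log_le_sub_one_of_pos h0
    rw [Real.log_pow]
    push_cast
    have h2 : b * (2 * Real.log (a + 2 * b + 1)) ≤ b * (2 * (a + 2 * b)) :=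
      mul_le_mul_of_nonneg_left (by linarith) hb
    have h3 : 0 ≤ a * b := mul_nonneg ha hb
    nlinarith [sq_nonneg a]

theorem log_le_pow {w η : ℝ} (hw : 1 ≤ w) (hη : 0 < η) : Real.log w ≤ w ^ η / η :=
  Real.log_le_rpow_div (by linarith) hη

theorem lemP (η e m₀ p : ℝ) (hη : 0 < η) (he : 0 ≤ e) (hm₀ : 1 ≤ m₀) (hp : 0 ≤ p) :
    ∃ c : ℝ, 1 ≤ c ∧ ∀ w E m : ℝ, 1 ≤ w → 0 ≤ E → E ≤ e * w ^ (1 + η) → 1 ≤ m →
      m ≤ m₀ * w ^ p →
      13 * (2 + E * Real.log (m * ((⌈c * w ^ (1 + 2 * η)⌉₊ : ℝ) + 2))) ≤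
        (⌈c * w ^ (1 + 2 * η)⌉₊ : ℝ) := by
  have hl4 : 0 ≤ Real.log (4 * m₀) := Real.log_nonneg (by linarith)
  obtain ⟨c, hc1, hc⟩ := exists_param
    (26 + 13 * e * (Real.log (4 * m₀) + (1 + 2 * η + p) / η)) (13 * e) (by positivity)
    (by positivity)
  refine ⟨c, hc1, ?_⟩
  intro w E m hw hE0 hE hm1 hm
  have hw0 : 0 < w := by linarith
  have hc0 : 0 < c := by linarith
  obtain ⟨x, hx⟩ : ∃ x : ℝ, x = w ^ (1 + 2 * η) := ⟨_, rfl⟩
  have hx1 : 1 ≤ x := by rw [hx]; exact Real.one_le_rpow hw (by linarith)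
  obtain ⟨u, hu⟩ : ∃ u : ℝ, u = w ^ η := ⟨_, rfl⟩
  have hu1 : 1 ≤ u := by rw [hu]; exact Real.one_le_rpow hw hη.le
  obtain ⟨J, hJ⟩ : ∃ J : ℕ, J = ⌈c * w ^ (1 + 2 * η)⌉₊ := ⟨_, rfl⟩
  rw [← hJ]
  have hcx : 1 ≤ c * x := one_le_mul_of_one_le_of_one_le hc1 hx1
  have hJ1 : c * x ≤ J := by rw [hJ, hx]; exact Nat.le_ceil _
  have hJ2 : (J : ℝ) ≤ c * x + 1 := by
    have := (Nat.ceil_lt_add_one (by positivity : 0 ≤ c * w ^ (1 + 2 * η))).le
    rw [← hJ, ← hx] at this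
    exact this
  have hlw0 : 0 ≤ Real.log w := Real.log_nonneg hw
  have hlc0 : 0 ≤ Real.log c := Real.log_nonneg hc1
  have hlw : Real.log w ≤ u / η := by rw [hu]; exact log_le_pow hw hη
  have h1 : m * ((J : ℝ) + 2) ≤ (4 * m₀) * (c * (w ^ p * x)) := by
    calc m * ((J : ℝ) + 2) ≤ (m₀ * w ^ p) * (4 * (c * x)) :=
          mul_le_mul hm (by linarith) (by positivity) (by positivity)
      _ = _ := by ring
  have h2 : Real.log (m * ((J : ℝ) + 2)) ≤
      Real.log (4 * m₀) + Real.log c + (1 + 2 * η + p) * Real.log w := by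
    refine (Real.log_le_log (by positivity) h1).trans (le_of_eq ?_)
    have hx0 : 0 < x := by linarith
    have hwp : 0 < w ^ p := Real.rpow_pos_of_pos hw0 p
    rw [Real.log_mul (show 4 * m₀ ≠ 0 by positivity) (by positivity), Real.log_mul hc0.ne'
      (mul_pos hwp hx0).ne', Real.log_mul hwp.ne' hx0.ne', hx, Real.log_rpow hw0,
      Real.log_rpow hw0]
    ring
  have h3 : Real.log (m * ((J : ℝ) + 2)) ≤
      (Real.log (4 * m₀) + Real.log c + (1 + 2 * η + p) / η) * u := by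
    refine h2.trans ?_
    have h4 : (1 + 2 * η + p) * Real.log w ≤ (1 + 2 * η + p) * (u / η) :=
      mul_le_mul_of_nonneg_left hlw (by positivity)
    have h5 : (Real.log (4 * m₀) + Real.log c) * 1 ≤ (Real.log (4 * m₀) + Real.log c) * u :=
      mul_le_mul_of_nonneg_left hu1 (by positivity)
    calc _ ≤ (Real.log (4 * m₀) + Real.log c) * u + (1 + 2 * η + p) * (u / η) := by linarith
      _ = _ := by ring
  have h6 : w ^ (1 + η) * u = x := by
    rw [hu, hx, ← Real.rpow_add hw0]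
    congr 1; ring
  have h7 : E * Real.log (m * ((J : ℝ) + 2)) ≤
      e * (Real.log (4 * m₀) + Real.log c + (1 + 2 * η + p) / η) * x := by
    have h8 : 0 ≤ Real.log (m * ((J : ℝ) + 2)) := by
      refine Real.log_nonneg ?_
      exact one_le_mul_of_one_le_of_one_le hm1 (by
        have : (0 : ℝ) ≤ J := Nat.cast_nonneg _
        linarith)
    calc _ ≤ (e * w ^ (1 + η)) *
          ((Real.log (4 * m₀) + Real.log c + (1 + 2 * η + p) / η) * u) :=
          mul_le_mul hE h3 h8 (by positivity)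
      _ = e * (Real.log (4 * m₀) + Real.log c + (1 + 2 * η + p) / η) * (w ^ (1 + η) * u) := by ring
      _ = _ := by rw [h6]
  calc 13 * (2 + E * Real.log (m * ((J : ℝ) + 2)))
      ≤ 13 * (2 * x + e * (Real.log (4 * m₀) + Real.log c + (1 + 2 * η + p) / η) * x) := by
        linarith
    _ = (26 + 13 * e * (Real.log (4 * m₀) + (1 + 2 * η + p) / η) + 13 * e * Real.log c) * x := by
        ring
    _ ≤ c * x := mul_le_mul_of_nonneg_right hc (by linarith)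
    _ ≤ J := hJ1

theorem params (δ : ℝ) (hδ : 0 < δ) : ∃ C : ℝ, 1 ≤ C ∧ ∀ K : ℝ, 1 ≤ K →
    ∃ n₁ s₀ E I k D : ℕ, 1 ≤ n₁ ∧ (n₁ : ℝ) ≤ C * (1 + Real.log K) ^ (1 + δ) ∧ s₀ + 1 ≤ n₁ ∧
      (∀ T d : ℕ, (T : ℝ) ≤ (2 * K ^ 8) ^ (13000 * (1 + Real.log (1 + Real.log (2 * K ^ 8)))) →
        (d : ℝ) ≤ 300 * Real.log (2 * K ^ 8) → T ^ 2 * 4 ^ d < 2 ^ (s₀ + 1)) ∧
      (∀ d : ℕ, (d : ℝ) ≤ 300 * Real.log (2 * K ^ 8) → s₀ + 2 * d ≤ E) ∧ 1 ≤ I ∧
      ((4 * (I * n₁) : ℕ) : ℝ) ^ E < (13 / 12) ^ (I - 1) ∧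
      4 * (4 * (2 * ((k + 1) * (I * n₁)))) ^ E ≤ 4 ^ k ∧ ((K ^ 8) ^ 3) ^ 185 < 2 ^ n₁ ∧
      (∀ M s : ℕ, (2 : ℝ) ^ M ≤ ((K ^ 8) ^ 3) ^ 185 → (s : ℝ) ≤ 480 * Real.log ((K ^ 8) ^ 3) + 1 →
        s + M ≤ D) ∧ D + 1 ≤ n₁ ∧ (D : ℝ) ≤ 36000 * Real.log (2 * K) ∧
      ((4 * (2 * ((k + 1) * (I * n₁))) + 8 : ℕ) : ℝ) ≤ C * (1 + Real.log K) ^ (2 + δ) * n₁ := by
  obtain ⟨η, hη⟩ : ∃ η : ℝ, η = δ / 4 := ⟨_, rfl⟩
  have hη0 : 0 < η := by rw [hη]; positivity
  obtain ⟨c₀, hc₀⟩ : ∃ c₀ : ℝ, c₀ = 8 * (9 + 1 / η) := ⟨_, rfl⟩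
  have hc₀0 : 0 < c₀ := by rw [hc₀]; positivity
  obtain ⟨c₁, hc₁⟩ : ∃ c₁ : ℝ, c₁ = 38200 * c₀ := ⟨_, rfl⟩
  have hc₁0 : 0 < c₁ := by rw [hc₁]; positivity
  obtain ⟨c₄, hc₄⟩ : ∃ c₄ : ℝ, c₄ = c₁ + 18003 := ⟨_, rfl⟩
  have hc₄1 : 1 ≤ c₄ := by rw [hc₄]; linarith
  obtain ⟨cI, hcI1, hcI⟩ := lemP η (c₁ + 4801) (4 * c₄) (1 + η) hη0 (by positivity) (by linarith)
    (by positivity)
  obtain ⟨ck, hck1, hck⟩ := lemP η (c₁ + 4801) (32 * cI * c₄) (2 + 3 * η) hη0 (by positivity)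
    (by nlinarith) (by positivity)
  have hckI : 1 ≤ ck * cI := one_le_mul_of_one_le_of_one_le hck1 hcI1
  refine ⟨c₄ + 96 * (ck * cI) + 8, by linarith, ?_⟩
  intro K hK
  have hK0 : 0 < K := by linarith
  have hlK : 0 ≤ Real.log K := Real.log_nonneg hK
  obtain ⟨w, hw⟩ : ∃ w : ℝ, w = 1 + Real.log K := ⟨_, rfl⟩
  rw [← hw]
  have hw1 : 1 ≤ w := by rw [hw]; linarith
  have hw0 : 0 < w := by linarith
  have hKw : Real.log K = w - 1 := by rw [hw]; ring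
  have hl2 := Real.log_two_gt_d9
  have hl2' := Real.log_two_lt_d9
  have hl4 : Real.log 4 = 2 * Real.log 2 := by
    rw [show (4 : ℝ) = 2 ^ 2 by norm_num, Real.log_pow]; push_cast; ring
  obtain ⟨u, hu⟩ : ∃ u : ℝ, u = w ^ η := ⟨_, rfl⟩
  have hu1 : 1 ≤ u := by rw [hu]; exact Real.one_le_rpow hw1 hη0.le
  obtain ⟨y, hy⟩ : ∃ y : ℝ, y = w ^ (1 + η) := ⟨_, rfl⟩
  have hyu : y = w * u := by rw [hy, hu, Real.rpow_add hw0, Real.rpow_one]
  have hwy : w ≤ y := by rw [hyu]; exact le_mul_of_one_le_right hw0.le hu1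
  have hy1 : 1 ≤ y := by linarith
  obtain ⟨x, hx⟩ : ∃ x : ℝ, x = w ^ (1 + 2 * η) := ⟨_, rfl⟩
  have hx1 : 1 ≤ x := by rw [hx]; exact Real.one_le_rpow hw1 (by positivity)
  -- `λ`
  obtain ⟨lam, hlam⟩ : ∃ lam : ℝ, lam = Real.log (2 * K ^ 8) := ⟨_, rfl⟩
  have hlam' : lam = Real.log 2 + 8 * Real.log K := by
    rw [hlam, Real.log_mul (by norm_num) (by positivity), Real.log_pow]; push_cast; ring
  have hlam0 : 0 < lam := by rw [hlam']; linarith
  have hlamw : lam ≤ 8 * w := by rw [hlam', hKw]; linarith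
  obtain ⟨Lam, hLam⟩ : ∃ Lam : ℝ, Lam = 1 + Real.log (1 + lam) := ⟨_, rfl⟩
  have hLam1 : 1 ≤ Lam := by
    rw [hLam]
    have := Real.log_nonneg (show 1 ≤ 1 + lam by linarith)
    linarith
  have hLamu : Lam ≤ (9 + 1 / η) * u := by
    have h1 : Real.log (1 + lam) ≤ Real.log (9 * w) :=
      Real.log_le_log (by linarith) (by linarith)
    rw [Real.log_mul (by norm_num) hw0.ne'] at h1
    have h2 : Real.log 9 ≤ 9 - 1 := Real.log_le_sub_one_of_pos (by norm_num)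
    have h3 : Real.log w ≤ u / η := by rw [hu]; exact log_le_pow hw1 hη0
    have h4 : (9 + 1 / η) * u = 9 * u + u / η := by ring
    rw [h4, hLam]
    linarith
  have hLl : Lam * lam ≤ c₀ * y := by
    calc Lam * lam ≤ ((9 + 1 / η) * u) * (8 * w) :=
          mul_le_mul hLamu hlamw hlam0.le (by positivity)
      _ = c₀ * y := by rw [hc₀, hyu]; ring
  have hlLl : lam ≤ Lam * lam := le_mul_of_one_le_left hlam0.le hLam1
  -- the parameters
  obtain ⟨s₀, hs₀⟩ : ∃ s₀ : ℕ, s₀ = ⌈c₁ * y⌉₊ := ⟨_, rfl⟩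
  have hs₀1 : c₁ * y ≤ s₀ := by rw [hs₀]; exact Nat.le_ceil _
  have hs₀2 : (s₀ : ℝ) ≤ c₁ * y + 1 := by
    rw [hs₀]; exact (Nat.ceil_lt_add_one (by positivity)).le
  obtain ⟨E, hE⟩ : ∃ E : ℕ, E = s₀ + ⌊4800 * w⌋₊ := ⟨_, rfl⟩
  have hE2 : (E : ℝ) ≤ (c₁ + 4801) * y := by
    have h1 := Nat.floor_le (show 0 ≤ 4800 * w by positivity)
    rw [hE]; push_cast
    have h2 : (c₁ + 4801) * y = c₁ * y + 4801 * y := by ring
    rw [h2]
    linarith
  have hE0 : (0 : ℝ) ≤ E := Nat.cast_nonneg _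
  obtain ⟨D, hD⟩ : ∃ D : ℕ, D = ⌊18000 * w⌋₊ := ⟨_, rfl⟩
  have hD1 : (D : ℝ) ≤ 18000 * w := by rw [hD]; exact Nat.floor_le (by positivity)
  have hD2 : 18000 * w < D + 1 := by rw [hD]; exact Nat.lt_floor_add_one _
  obtain ⟨n₁, hn₁⟩ : ∃ n₁ : ℕ, n₁ = s₀ + D + 2 := ⟨_, rfl⟩
  have hn₁1 : 1 ≤ n₁ := by omega
  have hn₁r : (1 : ℝ) ≤ n₁ := by exact_mod_cast hn₁1
  have hn₁c : (n₁ : ℝ) = s₀ + D + 2 := by rw [hn₁]; push_cast; ring
  have hn₁2 : (n₁ : ℝ) ≤ c₄ * y := by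
    have h2 : c₄ * y = c₁ * y + 18003 * y := by rw [hc₄]; ring
    rw [hn₁c, h2]
    linarith
  -- `I`
  have hI := hcI w E (4 * n₁) hw1 hE0 (by rw [← hy]; exact hE2) (by linarith)
    (by rw [← hy]; linarith)
  rw [← hx] at hI
  obtain ⟨J₁, hJ₁⟩ : ∃ J₁ : ℕ, J₁ = ⌈cI * x⌉₊ := ⟨_, rfl⟩
  rw [← hJ₁] at hI
  have hJ₁2 : (J₁ : ℝ) ≤ cI * x + 1 := by
    rw [hJ₁]; exact (Nat.ceil_lt_add_one (by positivity)).le
  have hcIx : 1 ≤ cI * x := one_le_mul_of_one_le_of_one_le hcI1 hx1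
  obtain ⟨I, hIdef⟩ : ∃ I : ℕ, I = J₁ + 2 := ⟨_, rfl⟩
  have hIr : (I : ℝ) = J₁ + 2 := by rw [hIdef]; push_cast; ring
  have hI1 : (1 : ℝ) ≤ I := by rw [hIr]; have : (0 : ℝ) ≤ J₁ := Nat.cast_nonneg _; linarith
  have hI4 : (I : ℝ) ≤ 4 * (cI * x) := by rw [hIr]; linarith
  have hIn1 : (1 : ℝ) ≤ I * n₁ := one_le_mul_of_one_le_of_one_le hI1 hn₁r
  have hIn : 8 * ((I : ℝ) * n₁) ≤ 32 * cI * c₄ * w ^ (2 + 3 * η) := by
    have e1 : w ^ (2 + 3 * η) = x * y := by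
      rw [hx, hy, ← Real.rpow_add hw0]; congr 1; ring
    rw [e1]
    calc 8 * ((I : ℝ) * n₁) ≤ 8 * ((4 * (cI * x)) * (c₄ * y)) :=
          mul_le_mul_of_nonneg_left (mul_le_mul hI4 hn₁2 (by linarith) (by positivity))
            (by norm_num)
      _ = _ := by ring
  -- `k`
  have hk := hck w E (8 * (I * n₁)) hw1 hE0 (by rw [← hy]; exact hE2) (by linarith) hIn
  rw [← hx] at hk
  obtain ⟨k, hkdef⟩ : ∃ k : ℕ, k = ⌈ck * x⌉₊ := ⟨_, rfl⟩
  rw [← hkdef] at hk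
  have hk2 : (k : ℝ) ≤ ck * x + 1 := by
    rw [hkdef]; exact (Nat.ceil_lt_add_one (by positivity)).le
  have hckx : 1 ≤ ck * x := one_le_mul_of_one_le_of_one_le hck1 hx1
  have hk0 : (0 : ℝ) ≤ k := Nat.cast_nonneg _
  refine ⟨n₁, s₀, E, I, k, D, hn₁1, ?_, by omega, ?_, ?_, by omega, ?_, ?_, ?_, ?_, by omega, ?_, ?_⟩
  · -- the size of `n₁`
    refine hn₁2.trans (mul_le_mul (by linarith) ?_ (by linarith) (by positivity))
    rw [hy]
    exact Real.rpow_le_rpow_of_exponent_le hw1 (by rw [hη]; linarith)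
  · -- the dissociativity bound
    intro T d hT hd
    rw [← hlam] at hT hd
    rw [← hLam, Real.rpow_def_of_pos (by positivity), ← hlam] at hT
    have h1 : ((T : ℝ)) ^ 2 * 4 ^ d < 2 ^ (s₀ + 1) := by
      have e1 : (4 : ℝ) ^ d = Real.exp (d * Real.log 4) := by
        rw [Real.exp_nat_mul, Real.exp_log (by norm_num)]
      have e2 : (2 : ℝ) ^ (s₀ + 1) = Real.exp (((s₀ + 1 : ℕ) : ℝ) * Real.log 2) := by
        rw [Real.exp_nat_mul, Real.exp_log (by norm_num)]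
      have e3 : (T : ℝ) ^ 2 ≤ Real.exp (((2 : ℕ) : ℝ) * (lam * (13000 * Lam))) := by
        rw [Real.exp_nat_mul]
        exact pow_le_pow_left₀ (Nat.cast_nonneg _) hT 2
      calc (T : ℝ) ^ 2 * 4 ^ d ≤ Real.exp (((2 : ℕ) : ℝ) * (lam * (13000 * Lam))) *
            Real.exp (d * Real.log 4) := by
              rw [← e1]; exact mul_le_mul_of_nonneg_right e3 (by positivity)
        _ = Real.exp (((2 : ℕ) : ℝ) * (lam * (13000 * Lam)) + d * Real.log 4) :=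
            (Real.exp_add _ _).symm
        _ < 2 ^ (s₀ + 1) := by
            rw [e2]
            refine Real.exp_lt_exp.2 ?_
            push_cast
            have h2 : (d : ℝ) * Real.log 4 ≤ (300 * lam) * 1.3862943617 := by
              refine mul_le_mul hd ?_ (by rw [hl4]; linarith) (by linarith)
              rw [hl4]; linarith
            have h3 : 0.6931471803 * (s₀ + 1 : ℝ) ≤ (s₀ + 1 : ℝ) * Real.log 2 := by
              rw [mul_comm]
              exact mul_le_mul_of_nonneg_left hl2.le (by positivity)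
            have h4 : 38200 * (Lam * lam) ≤ s₀ := by
              calc 38200 * (Lam * lam) ≤ 38200 * (c₀ * y) :=
                    mul_le_mul_of_nonneg_left hLl (by norm_num)
                _ = c₁ * y := by rw [hc₁]; ring
                _ ≤ s₀ := hs₀1
            have h5 : 2 * (lam * (13000 * Lam)) = 26000 * (Lam * lam) := by ring
            rw [h5]
            linarith
    exact_mod_cast h1
  · -- `E`
    intro d hd
    rw [← hlam] at hd
    have h1 : 2 * d ≤ ⌊4800 * w⌋₊ := by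
      refine Nat.le_floor ?_
      push_cast
      linarith
    omega
  · -- the Folner condition
    have hl13 : (1 : ℝ) / 13 ≤ Real.log (13 / 12) := by
      have := Real.one_sub_inv_le_log_of_pos (show (0 : ℝ) < 13 / 12 by norm_num)
      norm_num at this
      norm_num
      linarith
    have hIm : ((I - 1 : ℕ) : ℝ) = J₁ + 1 := by
      have : I - 1 = J₁ + 1 := by omega
      rw [this]; push_cast; ring
    have h1 : (13 / 12 : ℝ) ^ (I - 1) = Real.exp (((I - 1 : ℕ) : ℝ) * Real.log (13 / 12)) := by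
      rw [Real.exp_nat_mul, Real.exp_log (by norm_num)]
    have h2 : ((4 * (I * n₁) : ℕ) : ℝ) ^ E = Real.exp (E * Real.log (4 * n₁ * (J₁ + 2))) := by
      rw [Real.exp_nat_mul, Real.exp_log (by positivity)]
      congr 1
      push_cast
      rw [hIr]; ring
    rw [h1, h2]
    refine Real.exp_lt_exp.2 ?_
    have h3 : ((J₁ : ℝ) + 1) * (1 / 13) ≤ ((I - 1 : ℕ) : ℝ) * Real.log (13 / 12) := by
      rw [hIm]
      exact mul_le_mul_of_nonneg_left hl13 (by positivity)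
    linarith
  · -- the iteration
    have h1 : ((4 * (4 * (2 * ((k + 1) * (I * n₁)))) ^ E : ℕ) : ℝ) ≤ ((4 ^ k : ℕ) : ℝ) := by
      have e1 : ((4 ^ k : ℕ) : ℝ) = Real.exp (k * Real.log 4) := by
        rw [Real.exp_nat_mul, Real.exp_log (by norm_num)]; push_cast; rfl
      have e2 : ((4 * (4 * (2 * ((k + 1) * (I * n₁)))) ^ E : ℕ) : ℝ) =
          Real.exp (Real.log 4 + E * Real.log (8 * (I * n₁) * (k + 1))) := by
        rw [Real.exp_add, Real.exp_log (by norm_num), Real.exp_nat_mul,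
          Real.exp_log (by positivity)]
        push_cast
        congr 2
        ring
      rw [e1, e2]
      refine Real.exp_le_exp.2 ?_
      have h2 : Real.log (8 * (I * n₁) * (k + 1)) ≤ Real.log (8 * (I * n₁) * (k + 2)) :=
        Real.log_le_log (by positivity) (mul_le_mul_of_nonneg_left (by linarith) (by linarith))
      have h3 : (E : ℝ) * Real.log (8 * (I * n₁) * (k + 1)) ≤
          E * Real.log (8 * (I * n₁) * (k + 2)) := mul_le_mul_of_nonneg_left h2 hE0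
      have h4 : (k : ℝ) * 1 ≤ k * Real.log 4 :=
        mul_le_mul_of_nonneg_left (by rw [hl4]; linarith) hk0
      have h5 : Real.log 4 ≤ 2 := by rw [hl4]; linarith
      have h6 : 0 ≤ (E : ℝ) * Real.log (8 * (I * n₁) * (k + 2)) := by
        refine mul_nonneg hE0 (Real.log_nonneg ?_)
        have h7 : (1 : ℝ) ≤ 8 * (I * n₁) := by linarith
        exact one_le_mul_of_one_le_of_one_le h7 (by linarith)
      linarith
    exact_mod_cast h1
  · -- the rank condition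
    have e1 : ((K ^ 8) ^ 3) ^ 185 = Real.exp (((4440 : ℕ) : ℝ) * Real.log K) := by
      rw [Real.exp_nat_mul, Real.exp_log hK0, ← pow_mul, ← pow_mul]
    have e2 : (2 : ℝ) ^ n₁ = Real.exp ((n₁ : ℝ) * Real.log 2) := by
      rw [Real.exp_nat_mul, Real.exp_log (by norm_num)]
    rw [e1, e2]
    refine Real.exp_lt_exp.2 ?_
    have h1 : (18000 * w) * 0.6931471803 ≤ (n₁ : ℝ) * Real.log 2 := by
      refine mul_le_mul ?_ hl2.le (by norm_num) (by linarith)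
      rw [hn₁c]
      have : (0 : ℝ) ≤ s₀ := Nat.cast_nonneg _
      linarith
    rw [hKw]
    push_cast
    linarith
  · -- the dimension
    intro M s hM hs
    have e1 : ((K ^ 8) ^ 3) ^ 185 = Real.exp (((4440 : ℕ) : ℝ) * Real.log K) := by
      rw [Real.exp_nat_mul, Real.exp_log hK0, ← pow_mul, ← pow_mul]
    have e2 : (2 : ℝ) ^ M = Real.exp ((M : ℝ) * Real.log 2) := by
      rw [Real.exp_nat_mul, Real.exp_log (by norm_num)]
    have e3 : Real.log ((K ^ 8) ^ 3) = 24 * (w - 1) := by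
      rw [← pow_mul, Real.log_pow, hKw]; norm_num
    rw [e1, e2, hKw] at hM
    have h1 := Real.exp_le_exp.1 hM
    rw [e3] at hs
    have h2 : (M : ℝ) * 0.6931471803 ≤ (M : ℝ) * Real.log 2 :=
      mul_le_mul_of_nonneg_left hl2.le (Nat.cast_nonneg _)
    rw [hD]
    refine Nat.le_floor ?_
    push_cast at h1 ⊢
    linarith
  · -- the dimension bound
    have h1 : Real.log (2 * K) = Real.log 2 + (w - 1) := by
      rw [Real.log_mul (by norm_num) hK0.ne', hKw]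
    rw [h1]
    linarith
  · -- the size of `l`
    have h1 : ((4 * (2 * ((k + 1) * (I * n₁))) + 8 : ℕ) : ℝ) ≤ (96 * (ck * cI) + 8) * x ^ 2 * n₁ := by
      push_cast
      have h2 : ((k : ℝ) + 1) * I ≤ (3 * (ck * x)) * (4 * (cI * x)) :=
        mul_le_mul (by linarith) hI4 (by linarith) (by positivity)
      have h3 : (1 : ℝ) ≤ x ^ 2 * n₁ := one_le_mul_of_one_le_of_one_le (one_le_pow₀ hx1) hn₁r
      calc 4 * (2 * (((k : ℝ) + 1) * (I * n₁))) + 8 = 8 * ((((k : ℝ) + 1) * I) * n₁) + 8 * 1 := by ring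
        _ ≤ 8 * (((3 * (ck * x)) * (4 * (cI * x))) * n₁) + 8 * (x ^ 2 * n₁) := by
            have h4 : (((k : ℝ) + 1) * I) * n₁ ≤ ((3 * (ck * x)) * (4 * (cI * x))) * n₁ :=
              mul_le_mul_of_nonneg_right h2 (by linarith)
            linarith
        _ = _ := by ring
    have h2 : x ^ 2 = w ^ (2 + δ) := by
      rw [hx, ← Real.rpow_natCast, ← Real.rpow_mul hw0.le]
      congr 1
      rw [hη]; push_cast; ring
    rw [h2] at h1
    refine h1.trans (mul_le_mul_of_nonneg_right (mul_le_mul_of_nonneg_right ?_ (by positivity))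
      (by linarith))
    linarith

end Pool.Agent.H98.Big
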