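import Pool.Agent.H98.Big.Fin
import Pool.Agent.H98.Big.Num

/-!
# Doubling at one scale: the main theorem
-/

set_option autoImplicit false

namespace Pool.Agent.H98.Big

open Finset H112 Pool.Agent.Y806.DF Pool.Agent.H608VF Pool.Agent.H98.Sum Pool.Agent.R92.Star
open scoped Pointwise

universe u

section
variable {G : Type*} [AddCommGroup G] [DecidableEq G]

/-- the Pluennecke inequality, with real numbers -/
theorem pluen {S : Finset G} (hS : S.Nonempty) {K : ℝ} (h : ((S + S).card : ℝ) ≤ K * S.card)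
    (j : ℕ) : ((j • S - j • S).card : ℝ) ≤ K ^ (2 * j) * S.card := by
  have hS0 : (0 : ℝ) < S.card := by exact_mod_cast hS.card_pos
  have h1 := Finset.pluennecke_ruzsa_inequality_nsmul_sub_nsmul_add hS S j j
  have h2 : ((j • S - j • S).card : ℝ) ≤ (((S + S).card : ℝ) / S.card) ^ (j + j) * S.card := by
    have h3 := (NNRat.cast_le (K := ℝ)).2 h1
    push_cast at h3
    exact h3
  have h4 : ((S + S).card : ℝ) / S.card ≤ K := by rwa [div_le_iff₀ hS0]
  refine h2.trans (mul_le_mul_of_nonneg_right ?_ hS0.le)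
  rw [two_mul]
  exact pow_le_pow_left₀ (by positivity) h4 _

theorem main_concl (δ : ℝ) (hδ : 0 < δ) : ∃ C : ℝ, 0 < C ∧ ∀ (Γ : Type u) [AddCommGroup Γ]
    [DecidableEq Γ] (K : ℝ) (n N : ℕ) (A B : Finset Γ), 1 ≤ K → A.Nonempty → B.Nonempty →
    C * (1 + Real.log K) ^ (1 + δ) ≤ n → C * (1 + Real.log K) ^ (2 + δ) * n ≤ N →
    ((n • A + n • A).card : ℝ) ≤ K * (n • A).card →
    ((B + N • (A - A)).card : ℝ) ≤ K * (N • (A - A)).card →
    ((N • (A - A)).card : ℝ) ≤ K * B.card → Concl C K B := by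
  classical
  obtain ⟨C₁, hC₁1, hpar⟩ := params δ hδ
  obtain ⟨C₂, hC₂, hconcl⟩ := concl_of_struct.{u} 36000
  obtain ⟨C, hC⟩ : ∃ C : ℝ, C = 2 * C₁ + C₂ := ⟨_, rfl⟩
  have hC0 : 0 < C := by rw [hC]; linarith
  have hC1 : 2 * C₁ ≤ C := by rw [hC]; linarith
  have hC2 : C₂ ≤ C := by rw [hC]; linarith
  refine ⟨C, hC0, ?_⟩
  intro Γ _ _ K n N A B hK hA hB hn hN hdoub hBA hAB
  have hK0 : 0 < K := by linarith
  have hlK : 0 ≤ Real.log K := Real.log_nonneg hK
  have hl2K : 0 ≤ Real.log (2 * K) := Real.log_nonneg (by linarith)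
  have hw1 : 1 ≤ 1 + Real.log K := by linarith
  obtain ⟨n₁, s₀, E, I, k, D, hn₁1, hn₁C, hs₀n₁, hs₀, hE, hI, hRI, hk, hKn, hD, hDn₁, hDC, hlC⟩ :=
    hpar K hK
  have hwp1 : 1 ≤ (1 + Real.log K) ^ (1 + δ) := Real.one_le_rpow hw1 (by linarith)
  have hn₁n : n₁ ≤ n := by
    have h1 : (n₁ : ℝ) ≤ n := by
      refine hn₁C.trans (le_trans ?_ hn)
      exact mul_le_mul_of_nonneg_right (by linarith) (by positivity)
    exact_mod_cast h1
  -- the number `q`
  obtain ⟨q, hq⟩ : ∃ q : ℕ, q = n / n₁ + 1 := ⟨_, rfl⟩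
  have hnq : n ≤ n₁ * q := by
    rw [hq]
    have hpos : 0 < n₁ := hn₁1
    exact (Nat.lt_mul_div_succ n hpos).le
  have hqn : n₁ * q ≤ 2 * n := by
    rw [hq, mul_add, mul_one]
    have := Nat.mul_div_le n n₁
    omega
  have hq1 : 1 ≤ q := by rw [hq]; exact Nat.le_add_left 1 _
  -- the symmetric set
  obtain ⟨S, hS⟩ : ∃ S : Finset Γ, S = A - A := ⟨_, rfl⟩
  rw [← hS] at hBA hAB
  have h0S : (0 : Γ) ∈ S := by
    obtain ⟨a, ha⟩ := hA
    rw [hS, Finset.mem_sub]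
    exact ⟨a, ha, a, ha, sub_self a⟩
  have hsymS : -S = S := by rw [hS, neg_sub]
  have hnS : ∀ j : ℕ, j • S = j • A - j • A := by
    intro j
    rw [hS]
    exact nsmul_sub _ _ _
  have hnA : (n • A).Nonempty := hA.nsmul
  have hnS4 : (((4 * n) • S).card : ℝ) ≤ K ^ 8 * (n • S).card := by
    have h1 := pluen hnA hdoub 4
    rw [smul_smul] at h1
    rw [hnS (4 * n)]
    refine h1.trans (mul_le_mul_of_nonneg_left ?_ (by positivity))
    have h2 : (n • A).card ≤ (n • S).card := by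
      rw [hnS]
      obtain ⟨a, ha⟩ := hnA
      have h3 : n • A + {-a} ⊆ n • A - n • A := by
        rw [sub_eq_add_neg]
        exact Finset.add_subset_add_left (by
          rw [Finset.singleton_subset_iff]
          exact Finset.neg_mem_neg ha)
      have h4 := Finset.card_le_card h3
      rw [Finset.add_singleton, Finset.card_vadd_finset] at h4
      exact h4
    exact_mod_cast h2
  -- the grouped set
  obtain ⟨A₁, hA₁⟩ : ∃ A₁ : Finset Γ, A₁ = q • S := ⟨_, rfl⟩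
  have h0A₁ : (0 : Γ) ∈ A₁ := by
    rw [hA₁]
    have : q • (0 : Γ) ∈ q • S := Finset.nsmul_mem_nsmul h0S
    rwa [smul_zero] at this
  have hsymA₁ : -A₁ = A₁ := by rw [hA₁]; exact neg_nsmul_eq hsymS q
  have hmA₁ : ∀ j : ℕ, j • A₁ = (j * q) • S := by
    intro j
    rw [hA₁, smul_smul]
  have hdA₁ : ((n₁ • A₁ + n₁ • A₁).card : ℝ) ≤ K ^ 8 * (n₁ • A₁).card := by
    have h1 : n₁ • A₁ + n₁ • A₁ ⊆ (4 * n) • S := by
      rw [hmA₁, ← add_smul]
      exact Finset.nsmul_subset_nsmul_right h0S (by omega)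
    have h2 : (n • S).card ≤ (n₁ • A₁).card := by
      rw [hmA₁]
      exact Finset.card_le_card (Finset.nsmul_subset_nsmul_right h0S hnq)
    calc ((n₁ • A₁ + n₁ • A₁).card : ℝ) ≤ ((4 * n) • S).card := by
          exact_mod_cast Finset.card_le_card h1
      _ ≤ K ^ 8 * (n • S).card := hnS4
      _ ≤ K ^ 8 * (n₁ • A₁).card :=
          mul_le_mul_of_nonneg_left (by exact_mod_cast h2) (by positivity)
  -- the growth
  obtain ⟨E', d', hE', hd', hgrow'⟩ := grow_main h0A₁ hdA₁ hs₀n₁ hs₀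
  have hEE : E' ≤ E := hE'.trans (hE d' hd')
  have hgrow : ∀ m : ℕ, 1 ≤ m → (m • A₁).card ≤ (4 * m) ^ E * (n₁ • A₁).card := by
    intro m hm
    refine (hgrow' m hm).trans (Nat.mul_le_mul_right _ ?_)
    exact Nat.pow_le_pow_right (by omega) hEE
  -- the structure
  obtain ⟨d, Q, ψ, H, hdD, hQ, hH, hin, hout⟩ := struct_gen h0A₁ hsymA₁ hn₁1 le_rfl hI hgrow hRI
    rfl hk hdA₁ hKn hD hDn₁
  rw [hA₁] at hin hout
  have hqN : q * (4 * (2 * ((k + 1) * (I * n₁))) + 8) ≤ N := by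
    have h1 : ((q * (4 * (2 * ((k + 1) * (I * n₁))) + 8) : ℕ) : ℝ) ≤ N := by
      rw [Nat.cast_mul]
      calc (q : ℝ) * ((4 * (2 * ((k + 1) * (I * n₁))) + 8 : ℕ) : ℝ)
          ≤ q * (C₁ * (1 + Real.log K) ^ (2 + δ) * n₁) :=
            mul_le_mul_of_nonneg_left hlC (Nat.cast_nonneg _)
        _ = (C₁ * (1 + Real.log K) ^ (2 + δ)) * ((n₁ * q : ℕ) : ℝ) := by push_cast; ring
        _ ≤ (C₁ * (1 + Real.log K) ^ (2 + δ)) * ((2 * n : ℕ) : ℝ) :=
            mul_le_mul_of_nonneg_left (by exact_mod_cast hqn) (by positivity)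
        _ = (2 * C₁) * (1 + Real.log K) ^ (2 + δ) * n := by push_cast; ring
        _ ≤ C * (1 + Real.log K) ^ (2 + δ) * n :=
            mul_le_mul_of_nonneg_right (mul_le_mul_of_nonneg_right hC1 (by positivity))
              (Nat.cast_nonneg _)
        _ ≤ N := hN
    exact_mod_cast h1
  have hdC : (d : ℝ) ≤ 36000 * Real.log (2 * K) := by
    refine le_trans ?_ hDC
    exact_mod_cast hdD
  obtain ⟨d₁, Q₁, ψ₁, H₁, T, g1, g2, g3, g4, g5, g6⟩ := hconcl Γ K S B N q _ d Q ψ H hK h0S hsymS hB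
    hq1 hqN hdC hQ hH hin hout hBA hAB
  refine ⟨d₁, Q₁, ψ₁, H₁, T, ?_, g2, g3, g4, ?_, g6⟩
  · exact g1.trans (mul_le_mul_of_nonneg_right hC2 hl2K)
  · exact g5.trans (mul_le_mul hC2 (Real.rpow_le_rpow_of_exponent_le hK hC2) (by positivity) hC0.le)

end

end Pool.Agent.H98.Big
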