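import Pool.Graph.R_seed8.W860.PC.Lift
import Pool.Agent.H98.Sum.Conv

/-!
# Doubling at one scale: the rank of the lattice generated by the set
-/

set_option autoImplicit false

namespace Pool.Agent.H98.Big

open Finset H112 Pool.Agent.Y806.DF Pool.Agent.H98.Sum
open scoped Pointwise

theorem rank_le {m n : ℕ} {A : Finset (Fin m → ℤ)} (h0 : (0 : Fin m → ℤ) ∈ A) {L : ℝ}
    (hL : ((n • A + n • A).card : ℝ) ≤ L * (n • A).card) (hn : L ^ 185 < 2 ^ n) :
    ∃ M s : ℕ, (2 : ℝ) ^ M ≤ L ^ 185 ∧ (s : ℝ) ≤ 480 * Real.log L + 1 ∧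
      Module.finrank ℝ (Submodule.span ℝ (re '' (A : Set (Fin m → ℤ)))) ≤ s + M := by
  classical
  obtain ⟨S, T, hS, hT, hcov⟩ := W860.PC.marton_Zm (A := n • A) (Finset.Nonempty.nsmul ⟨0, h0⟩) hL
  set V : Submodule ℝ (Fin m → ℝ) := Submodule.span ℝ (re '' (S : Set (Fin m → ℤ))) with hV
  set q := V.mkQ with hq
  set W : Submodule ℝ (Fin m → ℝ) := Submodule.span ℝ (re '' (A : Set (Fin m → ℤ))) with hW
  obtain ⟨b, hbs, hbspan, hbli⟩ := exists_linearIndependent ℝ (q '' (re '' (A : Set (Fin m → ℤ))))
  have hbfin : b.Finite := (((Finset.finite_toSet A).image _).image _).subset hbs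
  have hch : ∀ v : (Fin m → ℝ) ⧸ V, ∃ a : Fin m → ℤ, v ∈ b → a ∈ A ∧ q (re a) = v := by
    intro v
    by_cases hv : v ∈ b
    · obtain ⟨_, ⟨a, ha, rfl⟩, hav⟩ := hbs hv
      exact ⟨a, fun _ => ⟨Finset.mem_coe.1 ha, hav⟩⟩
    · exact ⟨0, fun h => absurd h hv⟩
  choose a ha using hch
  -- closure of `S`
  have hclos : ∀ x ∈ AddSubgroup.closure (S : Set (Fin m → ℤ)), re x ∈ V := by
    intro x hx
    induction hx using AddSubgroup.closure_induction with
    | mem x hx => exact Submodule.subset_span ⟨x, hx, rfl⟩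
    | zero =>
      have : re (0 : Fin m → ℤ) = 0 := by funext i; simp [re]
      rw [this]; exact V.zero_mem
    | add x y _ _ hx hy => rw [re_add]; exact V.add_mem hx hy
    | neg x _ hx => rw [re_neg]; exact V.neg_mem hx
  -- subset sums
  have hsub : ∀ b' : Finset ((Fin m → ℝ) ⧸ V), (b' : Set ((Fin m → ℝ) ⧸ V)) ⊆ b → b'.card ≤ n →
      2 ^ b'.card ≤ T.card := by
    intro b' hb' hcard
    have hmem : ∀ I ∈ b'.powerset, ∑ v ∈ I, a v ∈ n • A := by
      intro I hI
      have hIb := Finset.mem_powerset.1 hI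
      have h2 := sum_mem_nsmul (A := A) I (fun _ => 1) a
        (fun v hv => (ha v (hb' (Finset.mem_coe.2 (hIb hv)))).1)
      simp only [one_smul, Finset.sum_const, smul_eq_mul, mul_one] at h2
      exact Finset.nsmul_subset_nsmul_right h0 ((Finset.card_le_card hIb).trans hcard) h2
    have hT' : ∀ I : Finset ((Fin m → ℝ) ⧸ V), ∃ t : Fin m → ℤ, I ∈ b'.powerset →
        t ∈ T ∧ (∑ v ∈ I, a v) - t ∈ AddSubgroup.closure (S : Set (Fin m → ℤ)) := by
      intro I
      by_cases hI : I ∈ b'.powerset
      · obtain ⟨t, ht, htS⟩ := hcov _ (hmem I hI)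
        exact ⟨t, fun _ => ⟨ht, htS⟩⟩
      · exact ⟨0, fun h => absurd h hI⟩
    choose t ht using hT'
    rw [← Finset.card_powerset]
    refine Finset.card_le_card_of_injOn t ?_ ?_
    · intro I hI
      exact (ht I (Finset.mem_coe.1 hI)).1
    · intro I hI J hJ hIJ
      have h1 := (ht I (Finset.mem_coe.1 hI)).2
      have h2 := (ht J (Finset.mem_coe.1 hJ)).2
      rw [hIJ] at h1
      have h3 : (∑ v ∈ I, a v) - (∑ v ∈ J, a v) ∈ AddSubgroup.closure (S : Set (Fin m → ℤ)) := by
        have := AddSubgroup.sub_mem _ h1 h2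
        have e : (∑ v ∈ I, a v - t J) - (∑ v ∈ J, a v - t J) = (∑ v ∈ I, a v) - (∑ v ∈ J, a v) := by
          abel
        rwa [e] at this
      have h4 : q (re ((∑ v ∈ I, a v) - (∑ v ∈ J, a v))) = 0 :=
        (Submodule.Quotient.mk_eq_zero V).2 (hclos _ h3)
      have hIb := Finset.mem_powerset.1 (Finset.mem_coe.1 hI)
      have hJb := Finset.mem_powerset.1 (Finset.mem_coe.1 hJ)
      have hqs : ∀ I' : Finset ((Fin m → ℝ) ⧸ V), I' ⊆ b' → q (re (∑ v ∈ I', a v)) =
          ∑ v ∈ b', (if v ∈ I' then (1 : ℝ) else 0) • v := by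
        intro I' hI'
        rw [re_sum, map_sum]
        simp only [ite_smul, one_smul, zero_smul]
        rw [← Finset.sum_filter]
        have e : b'.filter (fun v => v ∈ I') = I' := by
          ext v
          rw [Finset.mem_filter]
          exact ⟨fun h => h.2, fun h => ⟨hI' h, h⟩⟩
        rw [e]
        refine Finset.sum_congr rfl fun v hv => ?_
        exact (ha v (hb' (Finset.mem_coe.2 (hI' hv)))).2
      rw [re_sub, map_sub, hqs I hIb, hqs J hJb, ← Finset.sum_sub_distrib] at h4
      simp only [← sub_smul] at h4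
      have hli : LinearIndepOn ℝ id (b' : Set ((Fin m → ℝ) ⧸ V)) :=
        LinearIndepOn.mono (show LinearIndepOn ℝ id b from hbli) hb'
      have h5 := linearIndepOn_finset_iff.1 hli
        (fun v => (if v ∈ I then (1 : ℝ) else 0) - (if v ∈ J then 1 else 0)) h4
      ext v
      constructor
      · intro hv
        have := h5 v (hIb hv)
        by_contra hvJ
        simp only [if_pos hv, if_neg hvJ] at this
        norm_num at this
      · intro hv
        have := h5 v (hJb hv)
        by_contra hvI
        simp only [if_pos hv, if_neg hvI] at this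
        norm_num at this
  -- the number of the elements of `b`
  have hbn : hbfin.toFinset.card < n := by
    by_contra hcon
    push Not at hcon
    obtain ⟨b', hb', hb'c⟩ := Finset.exists_subset_card_eq hcon
    have h1 := hsub b' (fun v hv => (Set.Finite.mem_toFinset _).1 (hb' (Finset.mem_coe.1 hv))) hb'c.le
    rw [hb'c] at h1
    have h2 : ((2 : ℝ)) ^ n ≤ T.card := by exact_mod_cast h1
    linarith
  have hb2 := hsub hbfin.toFinset (by rw [hbfin.coe_toFinset]) hbn.le
  refine ⟨hbfin.toFinset.card, S.card, ?_, hS, ?_⟩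
  · have h2 : ((2 : ℝ)) ^ hbfin.toFinset.card ≤ T.card := by exact_mod_cast hb2
    exact h2.trans hT
  · -- dimensions
    have h1 := LinearMap.finrank_range_add_finrank_ker (q.domRestrict W)
    have h2 : Module.finrank ℝ (LinearMap.range (q.domRestrict W)) = hbfin.toFinset.card := by
      rw [LinearMap.range_domRestrict, hW, Submodule.map_span, ← hbspan]
      have : Fintype b := hbfin.fintype
      rw [finrank_span_set_eq_card (show LinearIndepOn ℝ id b from hbli)]
      congr 1
      ext v
      simp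
    have h3 : Module.finrank ℝ (LinearMap.ker (q.domRestrict W)) ≤ S.card := by
      rw [LinearMap.ker_domRestrict, hq, Submodule.ker_mkQ]
      have e1 : Module.finrank ℝ (Submodule.comap W.subtype V) ≤ Module.finrank ℝ V := by
        refine LinearMap.finrank_le_finrank_of_injective
          (f := (W.subtype.domRestrict (Submodule.comap W.subtype V)).codRestrict V
            (fun x => x.2)) ?_
        intro x y hxy
        have := congrArg Subtype.val hxy
        exact Subtype.ext (Subtype.ext this)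
      refine e1.trans ?_
      have e2 : V = Submodule.span ℝ ((S.image re : Finset (Fin m → ℝ)) : Set (Fin m → ℝ)) := by
        rw [hV, Finset.coe_image]
      rw [e2]
      exact (finrank_span_finset_le_card (R := ℝ) (S.image re)).trans Finset.card_image_le
    omega

/-- a basis of the subgroup generated by a finite set of integer points -/
theorem subgroup_basis' {m : ℕ} (N : Seminorm ℝ (Fin m → ℝ)) (S : Finset (Fin m → ℤ)) :
    ∃ (d : ℕ) (N' : Seminorm ℝ (Fin d → ℝ)) (φ : (Fin d → ℤ) →+ (Fin m → ℤ)),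
      d ≤ Module.finrank ℝ (Submodule.span ℝ (re '' (S : Set (Fin m → ℤ)))) ∧
      (∀ c : Fin d → ℤ, N' (fun i => (c i : ℝ)) = N (fun i => (φ c i : ℝ))) ∧
      ∀ z ∈ S, ∃ c, φ c = z := by
  classical
  set L : Submodule ℤ (Fin m → ℤ) := Submodule.span ℤ (S : Set (Fin m → ℤ)) with hL
  obtain ⟨d, b⟩ := Submodule.basisOfPid (Pi.basisFun ℤ (Fin m)) L
  let v : Fin d → (Fin m → ℤ) := fun i => (b i : Fin m → ℤ)
  have hvZ : LinearIndependent ℤ v := b.linearIndependent.map' L.subtype (Submodule.ker_subtype L)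
  have hvR : LinearIndependent ℝ (fun i => (algebraMap ℤ ℝ) ∘ v i) :=
    linearIndependent_algebraMap_comp_iff.2 hvZ
  let w : Fin d → (Fin m → ℝ) := fun i => (algebraMap ℤ ℝ) ∘ v i
  have hw : ∀ i, w i = re (v i) := fun i => rfl
  let Φ : (Fin d → ℝ) →ₗ[ℝ] (Fin m → ℝ) := Fintype.linearCombination ℝ w
  let φ : (Fin d → ℤ) →+ (Fin m → ℤ) := (Fintype.linearCombination ℤ v).toAddMonoidHom
  have hφ : ∀ c : Fin d → ℤ, φ c = ∑ i, c i • v i := fun c => rfl
  refine ⟨d, N.comp Φ, φ, ?_, ?_, ?_⟩
  · have h1 : Module.finrank ℝ (Submodule.span ℝ (Set.range w)) = d := by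
      rw [finrank_span_eq_card hvR, Fintype.card_fin]
    have h2 : Submodule.span ℝ (Set.range w) ≤
        Submodule.span ℝ (re '' (S : Set (Fin m → ℤ))) := by
      rw [Submodule.span_le]
      rintro _ ⟨i, rfl⟩
      rw [hw]
      have h3 : ∀ x ∈ L, re x ∈ Submodule.span ℝ (re '' (S : Set (Fin m → ℤ))) := by
        intro x hx
        rw [hL] at hx
        induction hx using Submodule.span_induction with
        | mem x hx => exact Submodule.subset_span ⟨x, hx, rfl⟩
        | zero =>
          have : re (0 : Fin m → ℤ) = 0 := by funext i; simp [re]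
          rw [this]; exact Submodule.zero_mem _
        | add x y _ _ hx hy => rw [re_add]; exact Submodule.add_mem _ hx hy
        | smul k x _ hx =>
          have : re (k • x) = (k : ℝ) • re x := by
            funext i; simp [re]
          rw [this]; exact Submodule.smul_mem _ _ hx
      exact h3 _ (b i).2
    have h3 := Submodule.finrank_mono h2
    rw [h1] at h3
    exact h3
  · intro c
    have h1 : Φ (fun i => (c i : ℝ)) = fun i => (φ c i : ℝ) := by
      funext k
      rw [hφ]
      change (∑ i, (c i : ℝ) • w i) k = _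
      rw [Finset.sum_apply, Finset.sum_apply]
      push_cast
      apply Finset.sum_congr rfl
      intro i _
      simp [w]
    change N (Φ _) = _
    rw [h1]
  · intro z hz
    have hzL : z ∈ L := Submodule.subset_span hz
    refine ⟨fun i => b.repr ⟨z, hzL⟩ i, ?_⟩
    rw [hφ]
    have h1 := b.sum_repr ⟨z, hzL⟩
    have h2 := congrArg L.subtype h1
    rw [map_sum] at h2
    simpa [v] using h2

end Pool.Agent.H98.Big
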