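import Pool.Agent.H98.Sum.Spec

/-!
# Doubling at one scale: the large spectrum of a Følner set
-/

set_option autoImplicit false

namespace Pool.Agent.H98.Big

open Finset H112 Pool.Agent.H98.Sum
open scoped Pointwise

variable {G : Type*} [AddCommGroup G] [DecidableEq G]

theorem neg_nsmul_eq {A : Finset G} (hA : -A = A) (m : ℕ) : -(m • A) = m • A := by
  induction m with
  | zero => rw [zero_smul]; exact neg_zero
  | succ m ih => rw [succ_nsmul, neg_add, ih, hA]

theorem bohr_big [AddGroup.FG G] {A : Finset G} (h0 : (0 : G) ∈ A) (hsym : -A = A)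
    {n r I k E l : ℕ} (hr : 0 < r) (hnr : n ≤ r) (hI : 1 ≤ I)
    (hgrow : ∀ m : ℕ, 1 ≤ m → (m • A).card ≤ (4 * m) ^ E * (n • A).card)
    (hRI : ((4 * (I * r) : ℕ) : ℝ) ^ E < (13 / 12) ^ (I - 1))
    (hl : l = 2 * ((k + 1) * (I * r))) (hk : 4 * (4 * l) ^ E ≤ 4 ^ k) :
    ∃ S : Set (G →+ UnitAddCircle), (bohr S (1 / 6)).Finite ∧
      (∀ x ∈ bohr S (1 / 6), x ∈ l • A) ∧ (∀ a ∈ A, a ∈ bohr S ((1 / 12) / r)) := by
  classical
  have hA : A.Nonempty := ⟨0, h0⟩
  have hn0 : (0 : ℝ) < (n • A).card := by exact_mod_cast (hA.nsmul (n := n)).card_pos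
  have hr0 : (0 : ℝ) < (r • A).card := by exact_mod_cast (hA.nsmul (n := r)).card_pos
  have hIr1 : 1 ≤ I * r := Nat.mul_pos hI hr
  have hnrc : (n • A).card ≤ (r • A).card :=
    Finset.card_le_card (Finset.nsmul_subset_nsmul_right h0 hnr)
  have hnrr : ((n • A).card : ℝ) ≤ (r • A).card := by exact_mod_cast hnrc
  -- the Følner set
  obtain ⟨i, hi1, hiI, hF⟩ := exists_folner A (r := r) (I := I)
    (R := ((4 * (I * r) : ℕ) : ℝ) ^ E) (e := 1 / 12) (by norm_num) hI (by
      have h1 : (((I * r) • A).card : ℝ) ≤ ((4 * (I * r) : ℕ) : ℝ) ^ E * (n • A).card := by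
        exact_mod_cast hgrow (I * r) hIr1
      exact h1.trans (mul_le_mul_of_nonneg_left hnrr (by positivity)))
    (by
      have h3 : (13 / 12 : ℝ) = 1 + 1 / 12 := by norm_num
      rw [h3] at hRI
      exact hRI)
    hA.nsmul
  set F : Finset G := (i * r) • A with hFdef
  have hFne : F.Nonempty := hA.nsmul
  have hF0 : (0 : ℝ) < F.card := by exact_mod_cast hFne.card_pos
  have hFF : F ⊆ ((i + 1) * r) • A :=
    Finset.nsmul_subset_nsmul_right h0 (Nat.mul_le_mul_right _ (by omega))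
  have hnF : ((n • A).card : ℝ) ≤ F.card := by
    have h1 : r ≤ i * r := Nat.le_mul_of_pos_left _ hi1
    exact_mod_cast Finset.card_le_card (Finset.nsmul_subset_nsmul_right h0 (hnr.trans h1))
  set S : Set (G →+ UnitAddCircle) := {γ | 1 / 2 ≤ ‖ft (U F) γ‖} with hS
  have hrA : ∀ x ∈ r • A, ∀ γ ∈ S, ‖γ x‖ ≤ 1 / 12 := by
    intro x hx γ hγ
    refine spec_small hFne hFF hF (fun y hy => ?_) hγ
    rw [show (i + 1) * r = r + i * r by ring, add_smul]
    exact Finset.add_mem_add hx hy
  have hAS : ∀ a ∈ A, a ∈ bohr S ((1 / 12) / r) := by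
    intro a ha γ hγ
    refine mul_small (by norm_num) (fun j hj => ?_) hr
    rw [← map_nsmul]
    refine hrA _ ?_ γ hγ
    exact Finset.nsmul_subset_nsmul_right h0 hj (Finset.nsmul_mem_nsmul ha)
  -- the size
  set f := U F * refl (U F) * (U F * refl (U F)) ^ k with hf
  set g := U F * (U F) ^ k with hg
  have hfg : f = g * H112.refl g := by
    rw [hf, hg, refl_mul, refl_pow (U F) k, mul_pow]; ring
  have hpow : ∀ j : ℕ, ((U F) ^ j).coeff.support ⊆ j • F := by
    intro j
    induction j with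
    | zero =>
      intro x hx
      rw [pow_zero] at hx
      rw [zero_smul]
      rw [Finsupp.mem_support_iff] at hx
      rw [Finset.mem_zero]
      by_contra hne
      apply hx
      show (AddMonoidAlgebra.single (0 : G) (1 : ℝ)).coeff x = 0
      rw [AddMonoidAlgebra.coeff_single]
      exact Finsupp.single_eq_of_ne hne
    | succ j ih =>
      rw [pow_succ, succ_nsmul]
      exact support_mul_subset ih size_support_U (fun a ha b hb => Finset.add_mem_add ha hb)
  obtain ⟨l', hl'⟩ : ∃ l' : ℕ, l' = (k + 1) * (I * r) := ⟨_, rfl⟩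
  have hll' : l = l' + l' := by rw [hl, hl']; ring
  have hgs : g.coeff.support ⊆ l' • A := by
    have h1 : g = (U F) ^ (k + 1) := by rw [hg, pow_succ, mul_comm]
    rw [h1]
    refine (hpow (k + 1)).trans ?_
    rw [hFdef, smul_smul, hl']
    exact Finset.nsmul_subset_nsmul_right h0 (Nat.mul_le_mul_left _ (Nat.mul_le_mul_right _ hiI.le))
  have hglaw : Law g := (law_U hFne).mul ((law_U hFne).pow k)
  have hrefl : (H112.refl g).coeff.support ⊆ l' • A := by
    intro x hx
    rw [Finsupp.mem_support_iff, refl_apply, ← Finsupp.mem_support_iff] at hx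
    have := hgs hx
    rw [← neg_nsmul_eq hsym l', Finset.mem_neg]
    exact ⟨-x, this, neg_neg x⟩
  have hfs : f.coeff.support ⊆ l • A := by
    rw [hfg, hll', add_smul]
    exact support_mul_subset hgs hrefl (fun a ha b hb => Finset.add_mem_add ha hb)
  have hflaw : Law f := by rw [hfg]; exact hglaw.mul hglaw.refl
  have hl1 : 1 ≤ l := by
    rw [hl]
    have : 1 ≤ (k + 1) * (I * r) := Nat.mul_pos (by omega) hIr1
    omega
  have hlpos : (0 : ℝ) < (l • A).card := by exact_mod_cast (hA.nsmul (n := l)).card_pos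
  have hlc : ((l • A).card : ℝ) ≤ (4 ^ k / 4) * F.card := by
    have h1 : ((l • A).card : ℝ) ≤ ((4 * l : ℕ) : ℝ) ^ E * (n • A).card := by
      exact_mod_cast hgrow l hl1
    have h2 : 4 * ((4 * l : ℕ) : ℝ) ^ E ≤ 4 ^ k := by exact_mod_cast hk
    calc ((l • A).card : ℝ) ≤ ((4 * l : ℕ) : ℝ) ^ E * (n • A).card := h1
      _ ≤ (4 ^ k / 4) * F.card := mul_le_mul (by linarith) hnF (Nat.cast_nonneg _) (by positivity)
  have hf0 : 1 / ((l • A).card : ℝ) ≤ f.coeff 0 := by
    have h1 := exp_neg_le_coeff_zero hglaw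
    rw [← hfg] at h1
    refine le_trans ?_ h1
    have h2 : H f ≤ Real.log ((l • A).card) := ent_le_log_card hflaw hfs
    have h3 : Real.exp (-Real.log ((l • A).card)) ≤ Real.exp (-H f) :=
      Real.exp_le_exp.2 (by linarith)
    refine le_trans ?_ h3
    rw [Real.exp_neg, Real.exp_log hlpos, one_div]
  have h4 : (1 / 4 : ℝ) ^ k ≤
      (U F * H112.refl (U F) * (U F * H112.refl (U F)) ^ k).coeff 0 * F.card / 4 := by
    rw [← hf]
    have h1 : (1 / 4 : ℝ) ^ k ≤ (1 / ((l • A).card : ℝ)) * F.card / 4 := by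
      rw [one_div_pow, div_mul_eq_mul_div, one_mul, div_div, div_le_div_iff₀ (by positivity)
        (by positivity)]
      have h5 : (4 : ℝ) ^ k / 4 * F.card * 4 = F.card * 4 ^ k := by ring
      linarith
    refine h1.trans ?_
    have h5 := mul_le_mul_of_nonneg_right hf0 hF0.le
    linarith
  obtain ⟨hfin, -⟩ := bohr_finite (G := G) hFne (law_U hFne) (m := k) h4
  have hsub := fg_case (G := G) hFne (law_U hFne) (m := k) h4
  rw [← hf] at hsub
  refine ⟨S, hfin, ?_, hAS⟩
  intro x hx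
  apply hfs
  rw [Finsupp.mem_support_iff]
  intro h0'
  have h1 := hsub x hx
  rw [h0'] at h1
  have h2 : 0 < f.coeff 0 := lt_of_lt_of_le (by positivity) hf0
  linarith

end Pool.Agent.H98.Big
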