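import Pool.Agent.H98.Big.Spec2
import Pool.Agent.H98.Big.Rank
import Pool.Graph.R_seed8.R424.EX.Link
import Pool.Graph.R_pool_sql_team_seeded_620a6dc7.helper608_VF_.V7

/-!
# Doubling at one scale: the structure of the iterated sumsets
-/

set_option autoImplicit false

namespace Pool.Agent.H98.Big

open Finset H112 Pool.Agent.Y806.DF Pool.Agent.H608VF Pool.Agent.H98.Sum
open scoped Pointwise

theorem image_nsmul_hom {G G' : Type*} [AddCommGroup G] [AddCommGroup G'] [DecidableEq G]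
    [DecidableEq G'] (f : G →+ G') (X : Finset G) (j : ℕ) :
    (j • X).image f = j • (X.image f) := by
  induction j with
  | zero => rw [zero_smul, zero_smul, Finset.image_zero, map_zero]; rfl
  | succ j ih => rw [succ_nsmul, succ_nsmul, Finset.image_add, ih]

theorem norm_nsmul {m : ℕ} (N : Seminorm ℝ (Fin m → ℝ)) {X : Finset (Fin m → ℤ)} {ρ : ℝ}
    (hX : ∀ v ∈ X, N (re v) ≤ ρ) (j : ℕ) : ∀ v ∈ j • X, N (re v) ≤ j * ρ := by
  induction j with
  | zero =>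
    intro v hv
    rw [zero_smul, Finset.mem_zero] at hv
    rw [hv]
    have : re (0 : Fin m → ℤ) = 0 := by funext i; simp [re]
    rw [this, map_zero]
    simp
  | succ j ih =>
    intro v hv
    rw [succ_nsmul] at hv
    obtain ⟨u, hu, w, hw, rfl⟩ := Finset.mem_add.1 hv
    rw [re_add]
    refine (map_add_le_add N _ _).trans ?_
    have h1 := ih u hu
    have h2 := hX w hw
    push_cast
    linarith

variable {G : Type*} [AddCommGroup G] [DecidableEq G]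

theorem struct_fg [AddGroup.FG G] {A : Finset G} (h0 : (0 : G) ∈ A) (hsym : -A = A)
    {n r I k E l D : ℕ} {K : ℝ} (hr : 0 < r) (hnr : n ≤ r) (hI : 1 ≤ I)
    (hgrow : ∀ m : ℕ, 1 ≤ m → (m • A).card ≤ (4 * m) ^ E * (n • A).card)
    (hRI : ((4 * (I * r) : ℕ) : ℝ) ^ E < (13 / 12) ^ (I - 1))
    (hl : l = 2 * ((k + 1) * (I * r))) (hk : 4 * (4 * l) ^ E ≤ 4 ^ k)
    (hK : ((n • A + n • A).card : ℝ) ≤ K * (n • A).card) (hKn : (K ^ 3) ^ 185 < 2 ^ n)
    (hD : ∀ M s : ℕ, (2 : ℝ) ^ M ≤ (K ^ 3) ^ 185 → (s : ℝ) ≤ 480 * Real.log (K ^ 3) + 1 → s + M ≤ D)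
    (hDr : D + 1 ≤ r) :
    ∃ (d : ℕ) (B : Set (Fin d → ℝ)) (ψ : (Fin d → ℤ) →+ G) (H : AddSubgroup G),
      d ≤ D ∧ Sym B ∧ Finite H ∧
      (∀ t : ℕ, ∀ x ∈ t • A, x ∈ cpr (lat ((t : ℝ) • B)) ψ H) ∧
      (∀ t : ℕ, ∀ x ∈ cpr (lat ((t : ℝ) • B)) ψ H, x ∈ (2 * t + l) • A) := by
  classical
  have hA : A.Nonempty := ⟨0, h0⟩
  obtain ⟨S, hfin, hbohr, hAS⟩ := bohr_big h0 hsym hr hnr hI hgrow hRI hl hk
  have hr' : (1 : ℝ) ≤ r := by exact_mod_cast hr
  obtain ⟨ρ, hρdef⟩ : ∃ ρ : ℝ, ρ = (1 / 12) / r := ⟨_, rfl⟩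
  rw [← hρdef] at hAS
  have hρr : ρ * r = 1 / 12 := by rw [hρdef]; field_simp
  have hρ0 : 0 < ρ := by rw [hρdef]; positivity
  have hρ12 : ρ ≤ 1 / 12 := by
    rw [hρdef, div_le_iff₀ (by linarith)]
    linarith
  obtain ⟨m, N, ψ, hN, h1, h2, -⟩ := lattice_repr S hfin hρ0.le (by linarith : ρ ≤ 1 / 6)
  have hzero : ∀ j : ℕ, re (0 : Fin j → ℤ) = 0 := fun j => by funext i; simp [re]
  -- the lifts
  have hlift : ∀ a : G, ∃ c : Fin m → ℤ, (a = 0 → c = 0) ∧
      (a ∈ A → (c ∈ LL N ρ ∧ a - ψ c ∈ ann S)) := by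
    intro a
    by_cases ha0 : a = 0
    · refine ⟨0, fun _ => rfl, fun _ => ⟨?_, ?_⟩⟩
      · show N (re (0 : Fin m → ℤ)) ≤ ρ
        rw [hzero, map_zero]; exact hρ0.le
      · rw [ha0, map_zero, sub_zero]; exact (ann S).zero_mem
    · by_cases ha : a ∈ A
      · obtain ⟨c, hc1, hc2⟩ := h2 a (hAS a ha)
        exact ⟨c, fun h => absurd h ha0, fun _ => ⟨hc1, hc2⟩⟩
      · exact ⟨0, fun h => absurd h ha0, fun h => absurd h ha⟩
  choose c hc0 hc using hlift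
  have hc00 : c 0 = 0 := hc0 0 rfl
  have hcN : ∀ a ∈ A, N (re (c a)) ≤ ρ := fun a ha => (hc a ha).1
  have hcH : ∀ a ∈ A, a - ψ (c a) ∈ ann S := fun a ha => (hc a ha).2
  set Ab : Finset (Fin m → ℤ) := A.image c with hAb
  have hAb0 : (0 : Fin m → ℤ) ∈ Ab := Finset.mem_image.2 ⟨0, h0, hc00⟩
  have hAbN : ∀ v ∈ Ab, N (re v) ≤ ρ := by
    intro v hv
    obtain ⟨a, ha, rfl⟩ := Finset.mem_image.1 hv
    exact hcN a ha
  -- doubling of the lift
  set π := QuotientAddGroup.mk' (ann S) with hπ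
  have hfim : Ab.image (π.comp ψ) = A.image π := by
    rw [hAb, Finset.image_image]
    refine Finset.image_congr fun a ha => ?_
    show π (ψ (c a)) = π a
    have h3 : π (a - ψ (c a)) = 0 := (QuotientAddGroup.eq_zero_iff _).2 (hcH a (Finset.mem_coe.1 ha))
    rw [map_sub, sub_eq_zero] at h3
    exact h3.symm
  have hfimj : ∀ j : ℕ, (j • Ab).image (π.comp ψ) = (j • A).image π := by
    intro j
    rw [image_nsmul_hom, hfim, image_nsmul_hom]
  have hinj : Set.InjOn (π.comp ψ) (((n + n) • Ab : Finset (Fin m → ℤ)) : Set (Fin m → ℤ)) := by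
    intro v hv w hw hvw
    have h3 := norm_nsmul N hAbN (n + n) v (Finset.mem_coe.1 hv)
    have h4 := norm_nsmul N hAbN (n + n) w (Finset.mem_coe.1 hw)
    have h5 : ((n : ℝ)) * ρ ≤ 1 / 12 := by
      rw [← hρr, mul_comm ρ]
      exact mul_le_mul_of_nonneg_right (by exact_mod_cast hnr) hρ0.le
    have h6 : N (re (v - w)) ≤ 1 / 3 := by
      rw [re_sub]
      refine (map_sub_le_add N _ _).trans ?_
      push_cast at h3 h4
      linarith
    have h7 : ψ (v - w) ∈ ann S := by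
      rw [← QuotientAddGroup.eq_zero_iff]
      show π (ψ (v - w)) = 0
      rw [map_sub, map_sub, sub_eq_zero]
      exact hvw
    have h8 : v - w ∈ LL N 0 :=
      (h1 (v - w) (lt_of_le_of_lt h6 (by norm_num)) 0 le_rfl).1 (bohr_zero_of_ann h7 le_rfl)
    exact sub_eq_zero.1 (LL_zero hN h8)
  have hcardj : ∀ j : ℕ, j ≤ n + n → (j • Ab).card = ((j • A).image π).card := by
    intro j hj
    rw [← hfimj j]
    symm
    refine Finset.card_image_of_injOn (hinj.mono ?_)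
    exact Finset.coe_subset.2 (Finset.nsmul_subset_nsmul_right hAb0 hj)
  have hdoub : ((n • Ab + n • Ab).card : ℝ) ≤ K ^ 3 * (n • Ab).card := by
    have h3 : n • Ab + n • Ab = (n + n) • Ab := (add_smul n n Ab).symm
    rw [h3, hcardj _ le_rfl, hcardj n (by omega)]
    have h4 : ((n + n) • A).image π = (n • A).image π + (n • A).image π := by
      rw [add_smul, Finset.image_add]
    rw [h4]
    exact Pool.Agent.R424.EX.image_doubling π hA.nsmul hK
  obtain ⟨M, s, hM, hs, hrank⟩ := rank_le hAb0 hdoub hKn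
  obtain ⟨d, N', φ, hd, hN', hφ⟩ := subgroup_basis' N Ab
  have hdD : d ≤ D := hd.trans (hrank.trans (hD M s hM hs))
  -- the new lifts
  have hlift' : ∀ a : G, ∃ c' : Fin d → ℤ, (a = 0 → c' = 0) ∧ (a ∈ A → φ c' = c a) := by
    intro a
    by_cases ha0 : a = 0
    · refine ⟨0, fun _ => rfl, fun _ => ?_⟩
      rw [map_zero, ha0, hc00]
    · by_cases ha : a ∈ A
      · obtain ⟨c', hc'⟩ := hφ (c a) (Finset.mem_image_of_mem c ha)
        exact ⟨c', fun h => absurd h ha0, fun _ => hc'⟩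
      · exact ⟨0, fun h => absurd h ha0, fun h => absurd h ha⟩
  choose c' hc'0 hc' using hlift'
  have hc'00 : c' 0 = 0 := hc'0 0 rfl
  set ψ' : (Fin d → ℤ) →+ G := ψ.comp φ with hψ'
  have h1' : ∀ v : Fin d → ℤ, N' (fun i => (v i : ℝ)) < 1 / 2 → ∀ r : ℝ, 0 ≤ r →
      (ψ' v ∈ bohr S r ↔ v ∈ LL N' r) := by
    intro v hv r hr
    rw [hN' v] at hv
    have h3 := h1 (φ v) hv r hr
    rw [show v ∈ LL N' r ↔ φ v ∈ LL N r by
      show N' (fun i => (v i : ℝ)) ≤ r ↔ N (fun i => (φ v i : ℝ)) ≤ r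
      rw [hN' v]]
    exact h3
  have hcN' : ∀ a ∈ A, c' a ∈ LL N' ρ := by
    intro a ha
    show N' (fun i => (c' a i : ℝ)) ≤ ρ
    rw [hN' (c' a), hc' a ha]
    exact hcN a ha
  have hcH' : ∀ a ∈ A, a - ψ' (c' a) ∈ ann S := by
    intro a ha
    show a - ψ (φ (c' a)) ∈ ann S
    rw [hc' a ha]
    exact hcH a ha
  set X : Set (Fin d → ℝ) := (fun a => re (c' a)) '' (A : Set G) with hX
  have hXfin : X.Finite := (Finset.finite_toSet A).image _
  have hX0 : (0 : Fin d → ℝ) ∈ X := ⟨0, Finset.mem_coe.2 h0, by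
    show re (c' 0) = 0
    rw [hc'00, hzero]⟩
  have hXne : X.Nonempty := ⟨0, hX0⟩
  refine ⟨d, convexHull ℝ (X - X), ψ', ann S, hdD, ?_, ann_finite hfin, ?_, ?_⟩
  · refine ⟨convex_convexHull ℝ _, (hXfin.sub hXfin).isCompact_convexHull ℝ, ?_,
      (hXne.sub hXne).convexHull⟩
    intro x hx
    have h4 : (convexHull ℝ) (-(X - X)) = -(convexHull ℝ (X - X)) := convexHull_neg _
    have h5 : -(X - X) = X - X := neg_sub X X
    rw [h5] at h4
    rw [h4]
    exact Set.neg_mem_neg.2 hx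
  · intro t x hx
    obtain ⟨v, hv, hvx⟩ := lift_nsmul c' hcH' hA t x hx
    refine ⟨v, ?_, x - ψ' v, hvx, by abel⟩
    obtain ⟨w, hw, hwv⟩ := hv
    refine ⟨w, ?_, hwv⟩
    refine convexHull_mono ?_ hw
    intro u hu
    exact ⟨u, hu, 0, hX0, sub_zero u⟩
  · rintro t _ ⟨z, hz, h, hh, rfl⟩
    obtain ⟨x, hx, y, hy, hxy⟩ := rounding h1' c' hcH' hcN' h0 (by
      have h3 : (d : ℝ) + 1 ≤ r := by exact_mod_cast (Nat.succ_le_succ hdD).trans hDr
      have h4 := mul_le_mul_of_nonneg_right h3 hρ0.le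
      linarith) t z hz hh
    have h5 := hbohr _ hxy
    have h6 : ψ' z + h = x + -y + (ψ' z + h - (x - y)) := by abel
    rw [h6, add_smul, two_mul, add_smul]
    refine Finset.add_mem_add (Finset.add_mem_add hx ?_) h5
    rw [← neg_nsmul_eq hsym t, Finset.mem_neg]
    exact ⟨y, hy, rfl⟩

end Pool.Agent.H98.Big
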